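import Pool.Agent.N750.CF.Df

/-!
The restriction of a plane curve to the curve `y = (x+1)^s` and its order of vanishing.
-/

namespace N750.CF

open Polynomial

variable {k : Type*} [Field k]

/-- The curve `y = (x+1)^s`. -/
noncomputable def cur (k : Type*) [Field k] (s : ℕ) : k[X] := (X + 1) ^ s

/-- The condition that `P` lies in `(y - phi, x^r)^m`, in coordinates `x, u = y - phi`. -/
def Fat (r m : ℕ) (phi : k[X]) (P : k[X][X]) : Prop :=
  ∀ t, (X : k[X]) ^ (r * (m - t)) ∣ (taylor phi P).coeff t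

/-- The restriction to the curve, in the coordinate `x + 1`. -/
noncomputable def rs (s : ℕ) (P : k[X][X]) : k[X] := (P.eval (cur k s)).comp (X - 1)

theorem rs_zero {s : ℕ} {P : k[X][X]} (h : rs s P = 0) : P.eval (cur k s) = 0 := by
  have h1 : (rs s P).comp (X + 1) = P.eval (cur k s) := by
    unfold rs
    rw [comp_assoc]
    simp
  rw [← h1, h]; simp

theorem degLT_mono {R : Type*} [CommRing R] {n n' : ℕ} (h : n ≤ n') {P : R[X][X]}
    (hP : DegLT n P) : DegLT n' P := fun i j hij => hP i j (h.trans hij)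

theorem coeff_comp_zero {n : ℕ} {P : k[X][X]} (hP : DegLT n P) (i j : ℕ) (hij : n ≤ i + j) :
    ((P.coeff j).comp (X - 1)).coeff i = 0 := by
  by_cases h0 : P.coeff j = 0
  · simp [h0]
  · apply coeff_eq_zero_of_natDegree_lt
    have h1 : (X - 1 : k[X]).natDegree = 1 := by
      have := natDegree_X_sub_C (1 : k)
      simpa using this
    rw [natDegree_comp, h1, mul_one]
    by_contra hc
    have h2 : (P.coeff j).coeff (P.coeff j).natDegree ≠ 0 := by
      simpa using h0
    apply h2
    apply hP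
    omega

theorem rs_eq (s : ℕ) (P : k[X][X]) :
    rs s P = ∑ j ∈ Finset.range (P.natDegree + 1), (P.coeff j).comp (X - 1) * X ^ (s * j) := by
  unfold rs
  rw [eval_eq_sum_range]
  rw [Polynomial.sum_comp]
  apply Finset.sum_congr rfl
  intro j _
  rw [mul_comp, pow_comp]
  congr 1
  unfold cur
  rw [pow_comp, ← pow_mul]
  simp

theorem rs_coeff {s n : ℕ} {P : k[X][X]} (hP : DegLT n P) (e : ℕ)
    (h : ∀ i j, i + s * j = e → n ≤ i + j) : (rs s P).coeff e = 0 := by
  rw [rs_eq, finsetSum_coeff]
  apply Finset.sum_eq_zero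
  intro j _
  rw [coeff_mul_X_pow']
  split_ifs with hj
  · apply coeff_comp_zero hP
    apply h
    omega
  · rfl

theorem rs_high {s n : ℕ} (hs : 1 ≤ s) {P : k[X][X]} (hP : DegLT n P) (e : ℕ)
    (he : s * n < e + s) : (rs s P).coeff e = 0 := by
  apply rs_coeff hP
  intro i j hij
  by_contra hc
  push Not at hc
  have h1 : i + j + 1 ≤ n := hc
  have h2 : s * (i + j + 1) ≤ s * n := Nat.mul_le_mul_left _ h1
  have h3 : i ≤ s * i := Nat.le_mul_of_pos_left _ (by omega)
  nlinarith

theorem dvd_rs {s N : ℕ} {P : k[X][X]} (h : (X : k[X]) ^ N ∣ P.eval (cur k s)) :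
    (X - 1 : k[X]) ^ N ∣ rs s P := by
  obtain ⟨q, hq⟩ := h
  refine ⟨q.comp (X - 1), ?_⟩
  unfold rs
  rw [hq, mul_comp, pow_comp, X_comp]

theorem natDegree_X_sub_one_pow (N : ℕ) : ((X - 1 : k[X]) ^ N).natDegree = N := by
  rw [natDegree_pow]
  have := natDegree_X_sub_C (1 : k)
  simp only [map_one] at this
  rw [this, mul_one]

/-- If the degree is too small, the restriction vanishes. -/
theorem eval_zero_of_lt {s n N : ℕ} (hs : 1 ≤ s) {P : k[X][X]} (hP : DegLT n P)
    (h : (X : k[X]) ^ N ∣ P.eval (cur k s)) (hN : s * n < N + s) : P.eval (cur k s) = 0 := by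
  apply rs_zero
  by_contra h0
  have h1 := dvd_rs h
  have h2 := natDegree_le_of_dvd h1 h0
  rw [natDegree_X_sub_one_pow] at h2
  have h3 : (rs s P).coeff (rs s P).natDegree ≠ 0 := by simpa using h0
  apply h3
  apply rs_high hs hP
  omega

/-- A multiple of `(x-1)^N` of degree at most `N` without a term of degree `N-1` is zero. -/
theorem zero_of_coeff {N : ℕ} (hN : 1 ≤ N) (hk : (N : k) ≠ 0) {T : k[X]}
    (h1 : (X - 1 : k[X]) ^ N ∣ T) (h2 : ∀ e, N < e → T.coeff e = 0)
    (h3 : T.coeff (N - 1) = 0) : T = 0 := by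
  by_contra h0
  obtain ⟨q, hq⟩ := h1
  have hq0 : q ≠ 0 := by
    rintro rfl
    apply h0; rw [hq]; simp
  have hX : ((X - 1 : k[X]) ^ N) ≠ 0 := by
    apply pow_ne_zero
    have := X_sub_C_ne_zero (1 : k)
    simpa using this
  have hd : T.natDegree = N + q.natDegree := by
    rw [hq, natDegree_mul hX hq0, natDegree_X_sub_one_pow]
  have hle : T.natDegree ≤ N := by
    rw [natDegree_le_iff_coeff_eq_zero]
    exact h2
  have hq1 : q.natDegree = 0 := by omega
  obtain ⟨b, hb⟩ : ∃ b, q = C b := ⟨_, eq_C_of_natDegree_eq_zero hq1⟩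
  have h4 : T.coeff (N - 1) = -(N : k) * b := by
    rw [hq, hb, coeff_mul_C]
    have h5 := coeff_X_add_C_pow (-1 : k) N (N - 1)
    have h5' : (X + C (-1) : k[X]) = X - 1 := by simp [sub_eq_add_neg]
    rw [h5'] at h5
    rw [h5]
    have h6 : N - (N - 1) = 1 := by omega
    have h7 : N.choose (N - 1) = N := by
      obtain ⟨M, rfl⟩ : ∃ M, N = M + 1 := ⟨N - 1, by omega⟩
      simp
    rw [h6, h7]; ring
  rw [h4] at h3
  have h8 : b ≠ 0 := by
    rintro rfl
    apply hq0; rw [hb]; simp
  rcases mul_eq_zero.1 h3 with h | h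
  · exact hk (neg_eq_zero.1 h)
  · exact h8 h

/-- The boundary case. -/
theorem eval_zero_of_eq {s n m : ℕ} (hs : 3 ≤ s) (hm : 1 ≤ m) {P : k[X][X]} (hP : DegLT n P)
    (hn : n ≤ m * s + 1) (h : (X : k[X]) ^ (s ^ 2 * m) ∣ P.eval (cur k s))
    (hk : ((m * s : ℕ) : k) ≠ 0) (hk' : (s : k) ≠ 0) :
    P.eval (cur k s) = 0 := by
  apply rs_zero
  have hP' := degLT_mono hn hP
  have hpos : 1 ≤ s ^ 2 * m := Nat.one_le_iff_ne_zero.2 (by positivity)
  apply zero_of_coeff hpos ?_ (dvd_rs h)
  · intro e he
    apply rs_high (by omega) hP'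
    nlinarith
  · apply rs_coeff hP'
    intro i j hij
    by_contra hc
    push Not at hc
    -- i + s j = s^2 m - 1, i + j ≤ m s
    have h1 : i + j ≤ m * s := by omega
    have h2 : i + s * j + 1 = s ^ 2 * m := by omega
    have h3 : j ≤ m * s := by omega
    obtain ⟨u, hu⟩ : ∃ u, m * s = j + u := ⟨m * s - j, by omega⟩
    have h4 : i ≤ u := by omega
    have h5 : s ^ 2 * m = s * j + s * u := by rw [← mul_add, ← hu]; ring
    have h6 : i + 1 = s * u := by omega
    have h7 : 3 * u ≤ s * u := Nat.mul_le_mul_right _ hs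
    have h8 : u = 0 := by omega
    subst h8
    simp at h6
  · intro hc
    apply mul_ne_zero hk hk'
    rw [← hc]; push_cast; ring

theorem degLT_of_mul {s n : ℕ} (hs : 2 ≤ s) (Q : k[X][X])
    (h : DegLT n ((X - C (cur k s)) * Q)) : DegLT (n - s) Q := by
  have hE : ∃ E, DegLT E Q := by
    refine ⟨Q.natDegree + 1 + ((Finset.range (Q.natDegree + 1)).sup
      (fun j => (Q.coeff j).natDegree)) + 1, ?_⟩
    intro i j hij
    by_cases hj : Q.natDegree < j
    · rw [coeff_eq_zero_of_natDegree_lt hj]; simp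
    · apply coeff_eq_zero_of_natDegree_lt
      have h1 : (Q.coeff j).natDegree ≤ (Finset.range (Q.natDegree + 1)).sup
          (fun j => (Q.coeff j).natDegree) :=
        Finset.le_sup (f := fun j => (Q.coeff j).natDegree)
          (Finset.mem_range.2 (by omega))
      omega
  obtain ⟨E, hE⟩ := hE
  induction E with
  | zero => exact degLT_mono (Nat.zero_le _) hE
  | succ e ih =>
    by_cases he : e + 1 ≤ n - s
    · exact degLT_mono he hE
    · apply ih
      intro i j hij
      by_cases hij' : e + 1 ≤ i + j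
      · exact hE i j hij'
      · have hij2 : i + j = e := by omega
        have h1 := h (s + i) j (by omega)
        rw [sub_mul, coeff_sub, coeff_C_mul, coeff_sub] at h1
        have h2 : ((X * Q).coeff j).coeff (s + i) = 0 := by
          cases j with
          | zero => simp
          | succ j =>
            rw [coeff_X_mul]
            apply hE
            omega
        have h3 : (cur k s * Q.coeff j).coeff (s + i) = (Q.coeff j).coeff i := by
          rw [coeff_mul_add_eq_of_natDegree_le]
          · unfold cur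
            have := coeff_X_add_one_pow k s s
            rw [this]; simp
          · unfold cur
            rw [natDegree_pow]
            have := natDegree_X_add_C (1 : k)
            simp only [map_one] at this
            rw [this, mul_one]
          · rw [natDegree_le_iff_coeff_eq_zero]
            intro N hN
            apply hE
            omega
        rw [h2, h3] at h1
        simpa using h1

theorem taylor_mul_sub (phi : k[X]) (Q : k[X][X]) :
    taylor phi ((X - C phi) * Q) = X * taylor phi Q := by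
  rw [taylor_mul, map_sub, taylor_X, taylor_C]
  ring

/-- One step: divide by the equation of the curve. -/
theorem step {r s n m : ℕ} (hs : 2 ≤ s) {P : k[X][X]} (hP : DegLT n P)
    (h0 : P.eval (cur k s) = 0) :
    ∃ Q, P = (X - C (cur k s)) * Q ∧ DegLT (n - s) Q ∧
      (Fat r (m + 1) (cur k s) P → Fat r m (cur k s) Q) := by
  obtain ⟨Q, hQ⟩ := dvd_iff_isRoot.2 h0
  refine ⟨Q, hQ, ?_, ?_⟩
  · apply degLT_of_mul hs
    rw [← hQ]; exact hP
  · intro hF t
    have h1 := hF (t + 1)
    rw [hQ, taylor_mul_sub, coeff_X_mul] at h1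
    have h2 : m + 1 - (t + 1) = m - t := by omega
    rwa [h2] at h1

theorem fat_eval {r m : ℕ} {phi : k[X]} {P : k[X][X]} (h : Fat r m phi P) :
    (X : k[X]) ^ (r * m) ∣ P.eval phi := by
  have := h 0
  rwa [taylor_coeff_zero, Nat.sub_zero] at this

theorem degLT_zero {P : k[X][X]} (h : DegLT 0 P) : P = 0 := by
  ext j i
  simpa using h i j (Nat.zero_le _)

/-- The range `d < m s`, `s^2 ≤ r`. -/
theorem zero_of_low {r s : ℕ} (hs : 2 ≤ s) (hr : s ^ 2 ≤ r) :
    ∀ (m n : ℕ) (P : k[X][X]), n ≤ m * s → DegLT n P → Fat r m (cur k s) P → P = 0 := by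
  intro m
  induction m with
  | zero =>
    intro n P hn hP _
    apply degLT_zero
    exact degLT_mono (by omega) hP
  | succ m ih =>
    intro n P hn hP hF
    have h0 : P.eval (cur k s) = 0 := by
      apply eval_zero_of_lt (by omega) hP (fat_eval hF)
      have h1 : s * n ≤ s * ((m + 1) * s) := Nat.mul_le_mul_left _ hn
      have h2 : s ^ 2 * (m + 1) ≤ r * (m + 1) := Nat.mul_le_mul_right _ hr
      nlinarith
    obtain ⟨Q, hQ, hQ1, hQ2⟩ := step (r := r) (m := m) hs hP h0
    have : Q = 0 := by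
      apply ih (n - s) Q _ hQ1 (hQ2 hF)
      have : (m + 1) * s = m * s + s := by ring
      omega
    rw [hQ, this, mul_zero]

/-- The range `s d < r m`, `r ≤ s^2`. -/
theorem zero_of_high {r s : ℕ} (hs : 2 ≤ s) (hr : r ≤ s ^ 2) :
    ∀ (m n : ℕ) (P : k[X][X]), s * n < r * m + s → DegLT n P → Fat r m (cur k s) P → P = 0 := by
  intro m
  induction m with
  | zero =>
    intro n P hn hP _
    apply degLT_zero
    have : n = 0 := by
      by_contra hc
      have : s * 1 ≤ s * n := Nat.mul_le_mul_left _ (by omega)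
      omega
    exact degLT_mono (by omega) hP
  | succ m ih =>
    intro n P hn hP hF
    have h0 : P.eval (cur k s) = 0 :=
      eval_zero_of_lt (by omega) hP (fat_eval hF) hn
    obtain ⟨Q, hQ, hQ1, hQ2⟩ := step (r := r) (m := m) hs hP h0
    have : Q = 0 := by
      apply ih (n - s) Q _ hQ1 (hQ2 hF)
      by_cases hns : n ≤ s
      · have : n - s = 0 := by omega
        rw [this]
        omega
      · obtain ⟨u, rfl⟩ : ∃ u, n = s + u := ⟨n - s, by omega⟩
        have : s + u - s = u := by omega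
        rw [this]
        nlinarith
    rw [hQ, this, mul_zero]

/-- The boundary case `n ≤ m s + 1`, `r = s^2`: only multiples of `(y - (x+1)^s)^m`. -/
theorem eq_pow_of_boundary {s : ℕ} (hs : 3 ≤ s) (hk' : (s : k) ≠ 0) :
    ∀ (m n : ℕ) (P : k[X][X]), (∀ j : ℕ, 1 ≤ j → j ≤ m → ((j * s : ℕ) : k) ≠ 0) →
      n ≤ m * s + 1 → DegLT n P → Fat (s ^ 2) m (cur k s) P →
      ∃ c : k, P = C (C c) * (X - C (cur k s)) ^ m := by
  intro m
  induction m with
  | zero =>
    intro n P _ hn hP _
    refine ⟨(P.coeff 0).coeff 0, ?_⟩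
    rw [pow_zero, mul_one]
    ext j i
    by_cases hj : j = 0
    · subst hj
      by_cases hi : i = 0
      · subst hi; simp
      · rw [coeff_C_zero, coeff_C_of_ne_zero hi]
        apply hP; omega
    · rw [coeff_C_of_ne_zero hj, coeff_zero]
      apply hP; omega
  | succ m ih =>
    intro n P hk hn hP hF
    have h0 : P.eval (cur k s) = 0 :=
      eval_zero_of_eq hs (by omega) hP hn (fat_eval hF) (hk (m + 1) (by omega) le_rfl) hk'
    obtain ⟨Q, hQ, hQ1, hQ2⟩ := step (r := s ^ 2) (m := m) (by omega) hP h0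
    obtain ⟨c, hc⟩ := ih (n - s) Q (fun j h1 h2 => hk j h1 (by omega)) (by
      have : (m + 1) * s = m * s + s := by ring
      omega) hQ1 (hQ2 hF)
    refine ⟨c, ?_⟩
    rw [hQ, hc, pow_succ]; ring

/-- The first order condition. -/
def Fst (r s m : ℕ) (b : k) (P : k[X][X]) : Prop :=
  ∀ t, t < m → (X : k[X]) ^ (r * (m - t)) ∣
    (taylor (cur k s) P).coeff t + (if t + 1 = m then C b * (X + 1) ^ (3 * s - 1) else 0)

theorem fst_base {s : ℕ} (hs : 4 ≤ s) (hk' : (s : k) ≠ 0) {b : k} {P : k[X][X]}
    (hP : DegLT (s + 1) P) (hF : Fst (s ^ 2) s 1 b P) : b = 0 := by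
  have h1 := hF 0 (by omega)
  rw [taylor_coeff_zero, if_pos (by omega), Nat.sub_zero, mul_one] at h1
  set T : k[X] := rs s P + C b * X ^ (3 * s - 1) with hT
  have h2 : (X - 1 : k[X]) ^ (s ^ 2) ∣ T := by
    obtain ⟨q, hq⟩ := h1
    refine ⟨q.comp (X - 1), ?_⟩
    have h3 := congrArg (fun p : k[X] => p.comp (X - 1)) hq
    simp only [add_comp, mul_comp, pow_comp, C_comp, X_comp, one_comp, sub_add_cancel] at h3
    exact h3
  have hss : 3 * s ≤ s ^ 2 - s := by
    have : 4 * s ≤ s * s := Nat.mul_le_mul_right _ hs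
    rw [sq]; omega
  have hss' : s ^ 2 - s ≤ s ^ 2 - 4 := by omega
  have hs2 : 16 ≤ s ^ 2 := by nlinarith
  have h4 : T = 0 := by
    apply zero_of_coeff (N := s ^ 2) (by omega) (by push_cast; exact pow_ne_zero _ hk') h2
    · intro e he
      rw [hT, coeff_add, coeff_C_mul, coeff_X_pow, if_neg (by omega), mul_zero, add_zero]
      apply rs_high (by omega) hP
      nlinarith
    · rw [hT, coeff_add, coeff_C_mul, coeff_X_pow, if_neg (by omega), mul_zero, add_zero]
      apply rs_coeff hP
      intro i j hij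
      by_contra hc
      push Not at hc
      have h5 : i + j ≤ s := by omega
      obtain ⟨u, hu⟩ : ∃ u, s = j + u := ⟨s - j, by omega⟩
      have h6 : i ≤ u := by omega
      have h7 : i + s * j + 1 = s ^ 2 := by omega
      have h8 : s ^ 2 = s * j + s * u := by
        rw [← mul_add, ← hu]; ring
      have h9 : i + 1 = s * u := by omega
      have h10 : 4 * u ≤ s * u := Nat.mul_le_mul_right _ hs
      have h11 : u = 0 := by omega
      subst h11
      simp at h9
  have h5 := congrArg (fun p : k[X] => p.coeff (3 * s - 1)) h4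
  simp only [hT, coeff_add, coeff_C_mul, coeff_X_pow, if_true, mul_one, coeff_zero] at h5
  rw [rs_coeff hP, zero_add] at h5
  · exact h5
  · intro i j hij
    by_contra hc
    push Not at hc
    have h6 : i + j ≤ s := by omega
    have h7 : i + s * j + 1 = 3 * s := by omega
    rcases Nat.lt_or_ge j 3 with hj | hj
    · interval_cases j <;> omega
    · have : s * 3 ≤ s * j := Nat.mul_le_mul_left _ hj
      omega

theorem fst_zero {s : ℕ} (hs : 4 ≤ s) (hk' : (s : k) ≠ 0) :
    ∀ (m : ℕ) (b : k) (P : k[X][X]), (∀ j : ℕ, 1 ≤ j → j ≤ m + 1 → ((j * s : ℕ) : k) ≠ 0) →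
      DegLT ((m + 1) * s + 1) P → Fst (s ^ 2) s (m + 1) b P → b = 0 := by
  intro m
  induction m with
  | zero =>
    intro b P _ hP hF
    apply fst_base hs hk' (P := P) _ (by simpa using hF)
    simpa using hP
  | succ m ih =>
    intro b P hk hP hF
    have h1 := hF 0 (by omega)
    rw [taylor_coeff_zero, if_neg (by omega), add_zero, Nat.sub_zero] at h1
    have h0 : P.eval (cur k s) = 0 :=
      eval_zero_of_eq (by omega) (by omega) hP le_rfl h1 (hk (m + 2) (by omega) (by omega)) hk'
    obtain ⟨Q, hQ, hQ1, -⟩ := step (r := s ^ 2) (m := m) (by omega) hP h0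
    apply ih b Q (fun j h1 h2 => hk j h1 (by omega))
    · apply degLT_mono _ hQ1
      have : (m + 1 + 1) * s = (m + 1) * s + s := by ring
      omega
    · intro t ht
      have h2 := hF (t + 1) (by omega)
      rw [hQ, taylor_mul_sub, coeff_X_mul] at h2
      have h3 : m + 1 + 1 - (t + 1) = m + 1 - t := by omega
      rw [h3] at h2
      have h4 : (t + 1 + 1 = m + 1 + 1) = (t + 1 = m + 1) := by
        simp
      simpa [h4] using h2

end N750.CF
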