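import Mathlib

/-!
Definitions: the collision `(y - phi(x), x^r)^m` of `r` fat points of multiplicity `m`
along an arc `y = phi(x)`, and the general arc.
Elements of `k[x,y]` are written as elements of `k[x][y]`.
-/

namespace N750.CF

open Polynomial

/-- The arc `phi_a(x) = a_0 + a_1 x + ... + a_(r-1) x^(r-1)`. -/
noncomputable def arc {R : Type*} [CommRing R] {r : ℕ} (a : Fin r → R) : R[X] :=
  ∑ i : Fin r, C (a i) * X ^ (i : ℕ)

/-- The polynomial `P` in `R[x][y]` has total degree less than `n` in `x, y`. -/
def DegLT {R : Type*} [CommRing R] (n : ℕ) (P : R[X][X]) : Prop :=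
  ∀ i j, n ≤ i + j → (P.coeff j).coeff i = 0

/-- The ideal `(y - phi(x), x^r)^m` of `R[x,y]`: the ideal of the collision of `r` points of
multiplicity `m` along the arc `y = phi(x)` at `x = 0`. -/
noncomputable def collision {R : Type*} [CommRing R] (r m : ℕ) (phi : R[X]) : Ideal R[X][X] :=
  (Ideal.span {X - C phi, C (X ^ r)}) ^ m

/-- For all arcs `phi_a` outside a proper closed subset of the affine space of all `a`,
no nonzero polynomial of total degree at most `d` lies in the ideal `(y - phi_a(x), x^r)^m`. -/
def GeneralVanishing (k : Type*) [Field k] (r m d : ℕ) : Prop :=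
  ∃ F : MvPolynomial (Fin r) k, F ≠ 0 ∧
    ∀ a : Fin r → k, MvPolynomial.eval a F ≠ 0 →
      ∀ P : k[X][X], DegLT (d + 1) P → P ∈ collision r m (arc a) → P = 0

end N750.CF
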