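import Mathlib

/-!
The choice of the fraction `a/b` near a square root.
-/

namespace N750.CF

/-- With `b = floor (sqrt t)` and `a` the integer nearest to `b sqrt t`. -/
theorem exists_fraction {t : ℝ} {b : ℕ} (hb : 1 ≤ b) (hbt : (b : ℝ) ≤ Real.sqrt t) :
    ∃ a : ℕ, b ^ 2 ≤ a ∧ (b : ℝ) * (Real.sqrt t - 1 / (2 * b)) < a ∧
      (a : ℝ) ≤ b * (Real.sqrt t + 1 / (2 * b)) := by
  have hb0 : (0 : ℝ) < b := by exact_mod_cast hb
  have h1 : (b : ℝ) * (1 / (2 * b)) = 1 / 2 := by field_simp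
  have h0 : 0 ≤ (b : ℝ) * Real.sqrt t + 1 / 2 := by positivity
  refine ⟨⌊(b : ℝ) * Real.sqrt t + 1 / 2⌋₊, ?_, ?_, ?_⟩
  · apply Nat.le_floor
    push_cast
    nlinarith
  · rw [mul_sub, h1]
    have := Nat.lt_floor_add_one ((b : ℝ) * Real.sqrt t + 1 / 2)
    linarith
  · rw [mul_add, h1]
    exact Nat.floor_le h0

theorem conditions_of_lt {r m d b : ℕ} (hb : 1 ≤ b) (hbr : b ^ 2 ≤ r)
    (hd : (d : ℝ) < m * (Real.sqrt r - 1 / (2 * b))) :
    ∃ a : ℕ, b ^ 2 ≤ a ∧ b * d < a * m ∧ a * d < r * b * m := by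
  have hb0 : (0 : ℝ) < b := by exact_mod_cast hb
  have hbt : (b : ℝ) ≤ Real.sqrt r := by
    apply Real.le_sqrt_of_sq_le
    exact_mod_cast hbr
  obtain ⟨a, h1, h2, h3⟩ := exists_fraction hb hbt
  have hr : Real.sqrt r * Real.sqrt r = r := Real.mul_self_sqrt (Nat.cast_nonneg r)
  have hm : (0 : ℝ) < m := by
    rcases Nat.eq_zero_or_pos m with h | h
    · subst h
      have : (0 : ℝ) ≤ d := Nat.cast_nonneg d
      simp at hd
      linarith
    · exact_mod_cast h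
  have ha : (0 : ℝ) < a := by
    have : 1 ≤ a := le_trans (Nat.one_le_pow _ _ hb) h1
    exact_mod_cast this
  refine ⟨a, h1, ?_, ?_⟩
  · have h4 : (b : ℝ) * d < b * (m * (Real.sqrt r - 1 / (2 * b))) :=
      mul_lt_mul_of_pos_left hd hb0
    have h5 : (b : ℝ) * (m * (Real.sqrt r - 1 / (2 * b))) =
        m * (b * (Real.sqrt r - 1 / (2 * b))) := by ring
    have h6 : (m : ℝ) * (b * (Real.sqrt r - 1 / (2 * b))) < m * a :=
      mul_lt_mul_of_pos_left h2 hm
    have h7 : (b : ℝ) * d < a * m := by nlinarith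
    exact_mod_cast h7
  · have h4 : (a : ℝ) * d < a * (m * (Real.sqrt r - 1 / (2 * b))) :=
      mul_lt_mul_of_pos_left hd ha
    have h8 : 0 < Real.sqrt r - 1 / (2 * b) := by
      by_contra hc
      push Not at hc
      have : (m : ℝ) * (Real.sqrt r - 1 / (2 * b)) ≤ 0 := by nlinarith
      have : (0 : ℝ) ≤ d := Nat.cast_nonneg d
      linarith
    have h5 : (a : ℝ) * (m * (Real.sqrt r - 1 / (2 * b))) ≤
        (b * (Real.sqrt r + 1 / (2 * b))) * (m * (Real.sqrt r - 1 / (2 * b))) :=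
      mul_le_mul_of_nonneg_right h3 (by positivity)
    have h6 : ((b : ℝ) * (Real.sqrt r + 1 / (2 * b))) * (m * (Real.sqrt r - 1 / (2 * b))) =
        b * m * (r - (1 / (2 * b)) ^ 2) := by
      have : ((b : ℝ) * (Real.sqrt r + 1 / (2 * b))) * (m * (Real.sqrt r - 1 / (2 * b))) =
        b * m * (Real.sqrt r * Real.sqrt r - (1 / (2 * b)) ^ 2) := by ring
      rw [this, hr]
    have h7 : (b : ℝ) * m * (r - (1 / (2 * b)) ^ 2) ≤ r * b * m := by
      have : 0 ≤ (b : ℝ) * m * (1 / (2 * b)) ^ 2 := by positivity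
      nlinarith
    have h9 : (a : ℝ) * d < r * b * m := by linarith
    exact_mod_cast h9

end N750.CF
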