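import Pool.Agent.N750.CF.Co

/-!
Monomial valuations with weights `b^2` on `x` and `a^2` on `u = y - phi(x)` along the arc
`phi = (x+1)^b + x^a`, where `b^2 ≤ a`: a polynomial of degree `d` has value at most `a b d`.
-/

namespace N750.CF

open Polynomial

variable {k : Type*} [Field k]

theorem order_eval {N a b d : ℕ} (hab : b ^ 2 ≤ a) (T : k[X][X])
    (hT : ∀ i j, b ^ 2 * i + a ^ 2 * j ≤ a * b * d → (T.coeff j).coeff i = 0)
    (hN : N = b * d + 1) (hb : 1 ≤ b) : (X : k[X]) ^ N ∣ T.eval (-X ^ a) := by
  rw [eval_eq_sum_range]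
  apply Finset.dvd_sum
  intro j _
  have ha : 1 ≤ a := le_trans (Nat.one_le_pow _ _ hb) hab
  by_cases hj : N ≤ a * j
  · apply Dvd.dvd.mul_left
    rw [neg_pow, ← pow_mul]
    apply Dvd.dvd.mul_left
    exact pow_dvd_pow X hj
  · have h1 : (X : k[X]) ^ (N - a * j) ∣ T.coeff j := by
      rw [X_pow_dvd_iff]
      intro i hi
      apply hT
      have h2 : i + a * j ≤ b * d := by omega
      have h3 : b ^ 2 * i ≤ a * i := Nat.mul_le_mul_right _ hab
      have h4 : a * (i + a * j) ≤ a * (b * d) := Nat.mul_le_mul_left _ h2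
      nlinarith
    have h5 : (X : k[X]) ^ N = X ^ (N - a * j) * X ^ (a * j) := by
      rw [← pow_add]; congr 1; omega
    rw [h5, neg_pow, ← pow_mul]
    apply mul_dvd_mul h1
    exact Dvd.intro_left _ rfl

theorem vanish_step {a b K : ℕ} (hab : b ^ 2 ≤ a) (U T : k[X][X])
    (hU : U = (X + C (X ^ a)) * T)
    (h : ∀ i j, b ^ 2 * i + a ^ 2 * j ≤ K + a * b ^ 2 → (U.coeff j).coeff i = 0) :
    ∀ j i, b ^ 2 * i + a ^ 2 * j ≤ K → (T.coeff j).coeff i = 0 := by
  intro j
  induction j with
  | zero =>
    intro i hi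
    have h1 := h (i + a) 0 (by nlinarith)
    rw [hU, add_mul, coeff_add, coeff_C_mul, coeff_add, coeff_X_pow_mul] at h1
    simpa using h1
  | succ j ih =>
    intro i hi
    have h1 := h (i + a) (j + 1) (by nlinarith)
    rw [hU, add_mul, coeff_add, coeff_C_mul, coeff_add, coeff_X_pow_mul, coeff_X_mul] at h1
    rw [ih (i + a), zero_add] at h1
    · exact h1
    · have h2 : a * b ^ 2 ≤ a * a := Nat.mul_le_mul_left _ hab
      nlinarith

/-- A nonzero polynomial of degree at most `d` has value at most `a b d`. -/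
theorem value_le {a b : ℕ} (hb : 2 ≤ b) (hab : b ^ 2 ≤ a) :
    ∀ (d : ℕ) (P : k[X][X]), DegLT (d + 1) P →
      (∀ i j, b ^ 2 * i + a ^ 2 * j ≤ a * b * d →
        ((taylor (cur k b + X ^ a) P).coeff j).coeff i = 0) → P = 0 := by
  intro d
  induction d using Nat.strong_induction_on with
  | _ d ih =>
    intro P hP hT
    have h0 : P.eval (cur k b) = 0 := by
      apply eval_zero_of_lt (N := b * d + 1) (by omega) hP
      · have h1 := order_eval hab (taylor (cur k b + X ^ a) P) hT rfl (by omega)
        have h2 : (taylor (cur k b + X ^ a) P).eval (-X ^ a) = P.eval (cur k b) := by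
          rw [taylor_eval]
          congr 1
          ring
        rwa [h2] at h1
      · rw [mul_add, mul_one]; omega
    obtain ⟨Q, hQ, hQ1, -⟩ := step (r := 1) (m := 0) (by omega) hP h0
    have hU : taylor (cur k b + X ^ a) P = (X + C (X ^ a)) * taylor (cur k b + X ^ a) Q := by
      rw [hQ, taylor_mul]
      congr 1
      rw [taylor_apply]
      simp only [sub_comp, X_comp, C_comp, C_add]
      ring
    have hQ0 : Q = 0 := by
      by_cases hdb : d < b
      · have : d + 1 - b = 0 := by omega
        rw [this] at hQ1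
        exact degLT_zero hQ1
      · obtain ⟨e, rfl⟩ : ∃ e, d = b + e := ⟨d - b, by omega⟩
        apply ih e (by omega) Q
        · have : b + e + 1 - b = e + 1 := by omega
          rwa [this] at hQ1
        · intro i j hij
          apply vanish_step hab _ _ hU (K := a * b * e)
          · intro i' j' h'
            apply hT
            nlinarith
          · exact hij
    rw [hQ, hQ0, mul_zero]

/-- The same for the arc `(x+1)^b - 1 + x^a` through the origin. -/
theorem value_le' {a b : ℕ} (hb : 2 ≤ b) (hab : b ^ 2 ≤ a) (d : ℕ) (P : k[X][X])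
    (hP : DegLT (d + 1) P)
    (h : ∀ i j, b ^ 2 * i + a ^ 2 * j ≤ a * b * d →
        ((taylor (cur k b - 1 + X ^ a) P).coeff j).coeff i = 0) : P = 0 := by
  have h1 : taylor (-1 : k[X]) P = 0 := by
    apply value_le hb hab d
    · intro i j hij
      rw [taylor_coeff, hasseDeriv_apply, sum_def, eval_finset_sum, finsetSum_coeff]
      apply Finset.sum_eq_zero
      intro l _
      rw [eval_monomial]
      have h2 : (-1 : k[X]) ^ (l - j) = C ((-1) ^ (l - j)) := by simp
      rw [h2, coeff_mul_C]
      by_cases hl : j ≤ l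
      · have h3 : ((l.choose j : ℕ) : k[X]) = C ((l.choose j : ℕ) : k) := by simp
        rw [h3, coeff_C_mul, hP i l (by omega)]; simp
      · rw [Nat.choose_eq_zero_of_lt (by omega)]; simp
    · intro i j hij
      rw [taylor_taylor]
      have h2 : (cur k b + X ^ a + (-1) : k[X]) = cur k b - 1 + X ^ a := by ring
      rw [h2]
      exact h i j hij
  have h2 : taylor (1 : k[X]) (taylor (-1 : k[X]) P) = P := by
    rw [taylor_taylor]; simp
  rw [← h2, h1, map_zero]

end N750.CF
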