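import Pool.Agent.N750.CF.Mn
import Pool.Agent.N750.CF.Va

/-!
Vanishing for the general collision below slope `min (a/b, r b/a)`.
-/

namespace N750.CF

open Polynomial

variable {k : Type*} [Field k]

/-- If the conditions along one arc are injective, then so are those along a general arc. -/
theorem general_of_injective' {r m d : ℕ} {phi : k[X]} (hphi : phi.natDegree < r)
    (H : ∀ P : k[X][X], DegLT (d + 1) P → Fat r m phi P → P = 0) :
    GeneralVanishing k r m d := by
  have harc : arc (fun i : Fin r => (phi.map (C : k →+* k[X])).coeff i) = phi.map C := by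
    apply arc_coeff
    rw [natDegree_map_eq_of_injective (C_injective)]
    exact hphi
  apply general_of_first_order (fun i : Fin r => (phi.map (C : k →+* k[X])).coeff i)
  intro v0 v1 h0 _
  rw [harc] at h0
  have h1 : (mat r m (d + 1) (phi.map (C : k →+* k[X]))).map (fun p => p.coeff 0) =
      mat r m (d + 1) phi := by
    have h2 := mat_map r m (d + 1) (constantCoeff : k[X] →+* k) (phi.map (C : k →+* k[X]))
    rw [Polynomial.map_map] at h2
    have h3 : (constantCoeff : k[X] →+* k).comp C = RingHom.id k := by ext x; simp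
    rw [h3, Polynomial.map_id] at h2
    exact h2
  rw [h1] at h0
  exact pof_eq_zero (H _ (degLT_pof v0) (fat_of_ker h0))

/-- Vanishing for `d/m < min (a/b, r b/a)`, whenever `2 ≤ b < r` and `b^2 ≤ a`. -/
theorem general_slope {r m d a b : ℕ} (hb : 2 ≤ b) (hbr : b < r) (hab : b ^ 2 ≤ a)
    (h1 : b * d < a * m) (h2 : a * d < r * b * m) : GeneralVanishing k r m d := by
  by_cases har : a < r
  · apply general_of_injective' (phi := cur k b + X ^ a)
    · apply lt_of_le_of_lt (natDegree_add_le _ _)
      rw [natDegree_X_pow, max_lt_iff]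
      refine ⟨?_, har⟩
      unfold cur
      rw [natDegree_X_add_one_pow]
      exact hbr
    · intro P hP hF
      apply value_le hb hab d P hP
      intro i j hij
      have h3 := X_pow_dvd_iff.1 (hF j)
      apply h3
      by_contra hc
      have h4 : r * m ≤ i + r * j := by
        rw [Nat.mul_sub] at hc
        omega
      have ha : 1 ≤ a := le_trans (Nat.one_le_pow _ _ (by omega)) hab
      rcases le_total (a ^ 2) (r * b ^ 2) with h5 | h5
      · have h6 : a ^ 2 * i ≤ r * b ^ 2 * i := Nat.mul_le_mul_right _ h5
        have h7 : (r * a) * (b * d) < (r * a) * (a * m) :=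
          Nat.mul_lt_mul_of_pos_left h1 (Nat.mul_pos (by omega) ha)
        have h8 : r * (b ^ 2 * i + a ^ 2 * j) ≤ r * (a * b * d) := Nat.mul_le_mul_left _ hij
        have h9 : a ^ 2 * (r * m) ≤ a ^ 2 * (i + r * j) := Nat.mul_le_mul_left _ h4
        nlinarith
      · have h6 : r * b ^ 2 * j ≤ a ^ 2 * j := Nat.mul_le_mul_right _ h5
        have h7 : b * (a * d) < b * (r * b * m) := Nat.mul_lt_mul_of_pos_left h2 (by omega)
        have h9 : b ^ 2 * (r * m) ≤ b ^ 2 * (i + r * j) := Nat.mul_le_mul_left _ h4
        nlinarith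
  · push Not at har
    by_cases hbr2 : b ^ 2 ≤ r
    · apply general_low hb hbr2
      have h3 : r * d ≤ a * d := Nat.mul_le_mul_right _ har
      have h4 : r * d < r * (m * b) := by
        calc r * d ≤ a * d := h3
          _ < r * b * m := h2
          _ = r * (m * b) := by ring
      exact Nat.lt_of_mul_lt_mul_left h4
    · push Not at hbr2
      apply general_high hb hbr hbr2.le
      have h3 : b ^ 2 * d ≤ a * d := Nat.mul_le_mul_right _ hab
      have h4 : b * (b * d) < b * (r * m) := by
        calc b * (b * d) = b ^ 2 * d := by ring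
          _ ≤ a * d := h3
          _ < r * b * m := h2
          _ = b * (r * m) := by ring
      exact Nat.lt_of_mul_lt_mul_left h4

theorem general_mono {r r' m d : ℕ} (hrr : r ≤ r') (hr : 1 ≤ r) (h : GeneralVanishing k r m d) :
    GeneralVanishing k r' m d := by
  obtain ⟨F, hF, h⟩ := h
  refine ⟨MvPolynomial.rename (Fin.castLE hrr) F, ?_, ?_⟩
  · intro h0
    apply hF
    apply MvPolynomial.rename_injective _ (Fin.castLE_injective hrr)
    rw [h0, map_zero]
  · intro a ha P hP hPm
    rw [MvPolynomial.eval_rename] at ha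
    apply h _ ha P hP
    have hle : collision r' m (arc a) ≤ collision r m (arc (a ∘ Fin.castLE hrr)) := by
      unfold collision
      apply Ideal.pow_right_mono
      rw [Ideal.span_le]
      intro x hx
      have hdiff : ∃ q : k[X], arc a = arc (a ∘ Fin.castLE hrr) + X ^ r * q := by
        obtain ⟨e, rfl⟩ : ∃ e, r' = r + e := ⟨r' - r, by omega⟩
        unfold arc
        refine ⟨∑ i : Fin e, C (a (Fin.natAdd r i)) * X ^ (i : ℕ), ?_⟩
        rw [Fin.sum_univ_add, Finset.mul_sum]
        congr 1
        apply Finset.sum_congr rfl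
        intro i _
        rw [Fin.val_natAdd, pow_add]; ring
      have hX : (C (X ^ r) : k[X][X]) ∈ Ideal.span
          {(X : k[X][X]) - C (arc (a ∘ Fin.castLE hrr)), C (X ^ r)} :=
        Ideal.subset_span (by simp)
      rcases hx with rfl | hx
      · obtain ⟨q, hq⟩ := hdiff
        rw [SetLike.mem_coe, hq]
        have : (X - C (arc (a ∘ Fin.castLE hrr) + X ^ r * q) : k[X][X]) =
            (X - C (arc (a ∘ Fin.castLE hrr))) - C q * C (X ^ r) := by
          rw [map_add, map_mul]; ring
        rw [this]
        exact Ideal.sub_mem _ (Ideal.subset_span (by simp)) (Ideal.mul_mem_left _ _ hX)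
      · rw [Set.mem_singleton_iff] at hx
        rw [hx, SetLike.mem_coe]
        have : (C (X ^ r') : k[X][X]) = C (X ^ (r' - r)) * C (X ^ r) := by
          rw [← map_mul, ← pow_add]; congr 2; omega
        rw [this]
        exact Ideal.mul_mem_left _ _ hX
    exact hle hPm

/-- The boundary degree: `d ≤ m s` for all `r ≥ s^2`, `s ≥ 4`. -/
theorem general_floor {r s m d : ℕ} (hs : 4 ≤ s) (hr : s ^ 2 ≤ r) (hm : 1 ≤ m) (hd : d ≤ m * s)
    (hk : ∀ j : ℕ, 1 ≤ j → j ≤ m → ((j * s : ℕ) : k) ≠ 0) :
    GeneralVanishing k r m d :=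
  general_mono hr (by nlinarith) (general_square hs hm hd hk)

end N750.CF
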