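import Pool.Agent.N750.CF.Df

/-!
Linear algebra: a first order criterion for a family of matrices over `k[e]` to become
injective after projection to a square matrix.
-/

namespace N750.CF

open Polynomial

theorem exists_proj {k V W : Type*} [Field k] [AddCommGroup V] [Module k V] [AddCommGroup W]
    [Module k W] (L0 L1 : V →ₗ[k] W)
    (H : ∀ v0 v1, L0 v0 = 0 → L0 v1 + L1 v0 = 0 → v0 = 0) :
    ∃ g : W →ₗ[k] V, (∀ v0, g (L0 v0) = 0 → L0 v0 = 0) ∧
      (∀ v0 v1, L0 v0 = 0 → g (L0 v1 + L1 v0) = 0 → v0 = 0) := by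
  obtain ⟨q0, hq0⟩ := LinearMap.exists_rightInverse_of_surjective L0.rangeRestrict
    L0.range_rangeRestrict
  obtain ⟨q, hq⟩ := LinearMap.exists_extend q0
  have hq1 : ∀ v, L0 (q (L0 v)) = L0 v := by
    intro v
    have h1 : q (L0 v) = q0 (L0.rangeRestrict v) := by
      have := congrArg (fun f => f (L0.rangeRestrict v)) hq
      simpa using this
    rw [h1]
    have h2 := congrArg (fun f => f (L0.rangeRestrict v)) hq0
    have h3 := congrArg Subtype.val h2
    simpa using h3
  set Th : V →ₗ[k] W := L0 + L1 ∘ₗ (LinearMap.id - q ∘ₗ L0) with hTh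
  have hThv : ∀ v, Th v = L0 v + L1 (v - q (L0 v)) := by
    intro v; simp [hTh]
  have hker : ∀ v, L0 (v - q (L0 v)) = 0 := by
    intro v; rw [map_sub, hq1, sub_self]
  have hinj : LinearMap.ker Th = ⊥ := by
    rw [LinearMap.ker_eq_bot']
    intro v hv
    rw [hThv] at hv
    have h1 := H _ _ (hker v) hv
    have h2 : q (L0 v) = v := (sub_eq_zero.1 h1).symm
    rw [h2, sub_self, map_zero, add_zero] at hv
    rw [← h2, hv, map_zero]
  obtain ⟨g, hg⟩ := LinearMap.exists_leftInverse_of_injective Th hinj
  have hg' : ∀ v, g (Th v) = v := fun v => by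
    have := congrArg (fun f => f v) hg
    simpa using this
  refine ⟨g, ?_, ?_⟩
  · intro v0 h
    have h1 : Th (q (L0 v0)) = L0 v0 := by
      rw [hThv, hq1, sub_self, map_zero, add_zero]
    have h2 := hg' (q (L0 v0))
    rw [h1, h] at h2
    rw [← hq1 v0, ← h2, map_zero]
  · intro v0 v1 h0 h
    have h1 : Th (q (L0 v1) + v0) = L0 v1 + L1 v0 := by
      rw [hThv, map_add, hq1, h0, add_zero]
      congr 2
      abel
    have h2 := hg' (q (L0 v1) + v0)
    rw [h1, h] at h2
    have h3 : L0 v1 = 0 := by
      have := congrArg L0 h2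
      rw [map_zero, map_add, hq1, h0, add_zero] at this
      exact this.symm
    rw [h3, map_zero, zero_add] at h2
    exact h2.symm

variable {k : Type*} [Field k] {I J : Type*} [Fintype I] [DecidableEq I] [Fintype J]
  [DecidableEq J]

/-- A kernel vector over `k[e]` can be chosen nonzero at `e = 0`. -/
theorem exists_primitive (M : Matrix I I k[X]) (n : ℕ) :
    ∀ v : I → k[X], (∀ i, (v i).natDegree ≤ n) → v ≠ 0 → M.mulVec v = 0 →
      ∃ v' : I → k[X], M.mulVec v' = 0 ∧ ∃ i, (v' i).coeff 0 ≠ 0 := by
  induction n with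
  | zero =>
    intro v hv hv0 hM
    refine ⟨v, hM, ?_⟩
    by_contra hc
    push Not at hc
    apply hv0
    funext i
    rw [eq_C_of_natDegree_eq_zero (Nat.le_zero.1 (hv i)), hc i]; simp
  | succ n ih =>
    intro v hv hv0 hM
    by_cases hc : ∃ i, (v i).coeff 0 ≠ 0
    · exact ⟨v, hM, hc⟩
    · push Not at hc
      have h1 : ∀ i, v i = X * (v i).divX := by
        intro i
        have := divX_mul_X_add (v i)
        rw [hc i, C_0, add_zero] at this
        rw [mul_comm]; exact this.symm
      have h2 : v = (X : k[X]) • (fun i => (v i).divX) := by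
        funext i
        rw [Pi.smul_apply, smul_eq_mul]
        exact h1 i
      apply ih (fun i => (v i).divX)
      · intro i
        rw [natDegree_divX_eq_natDegree_tsub_one]
        have := hv i
        omega
      · intro h3
        apply hv0
        rw [h2, h3, smul_zero]
      · rw [h2, Matrix.mulVec_smul] at hM
        funext i
        have h3 := congrFun hM i
        rw [Pi.smul_apply, smul_eq_mul, Pi.zero_apply, mul_eq_zero] at h3
        rcases h3 with h3 | h3
        · exact absurd h3 X_ne_zero
        · exact h3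

/-- A matrix of polynomials `E` in one variable `e`; if its `e^0` and `e^1` parts satisfy the first
order condition `H` then there is a constant matrix `G` with `det (G E)` nonzero. -/
theorem exists_det_ne_zero (E : Matrix J I k[X])
    (H : ∀ v0 v1 : I → k, (E.map (fun p => p.coeff 0)).mulVec v0 = 0 →
      (E.map (fun p => p.coeff 0)).mulVec v1 + (E.map (fun p => p.coeff 1)).mulVec v0 = 0 →
      v0 = 0) :
    ∃ G : Matrix I J k, (G.map C * E).det ≠ 0 := by
  obtain ⟨g, hg0, hg1⟩ := exists_proj (E.map (fun p => p.coeff 0)).mulVecLin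
    (E.map (fun p => p.coeff 1)).mulVecLin H
  refine ⟨LinearMap.toMatrix' g, ?_⟩
  intro hdet
  obtain ⟨v, hv0, hv⟩ := Matrix.exists_mulVec_eq_zero_iff.2 hdet
  obtain ⟨v', hv', i, hi⟩ := exists_primitive _
    (Finset.univ.sup (fun i => (v i).natDegree)) v
    (fun i => Finset.le_sup (f := fun i => (v i).natDegree) (Finset.mem_univ i)) hv0 hv
  have hc0 : ∀ j, (E.mulVec v' j).coeff 0 =
      (E.map (fun p => p.coeff 0)).mulVec (fun i => (v' i).coeff 0) j := by
    intro j
    simp only [Matrix.mulVec, dotProduct, finsetSum_coeff, mul_coeff_zero, Matrix.map_apply]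
  have hc1 : ∀ j, (E.mulVec v' j).coeff 1 =
      ((E.map (fun p => p.coeff 0)).mulVec (fun i => (v' i).coeff 1) +
      (E.map (fun p => p.coeff 1)).mulVec (fun i => (v' i).coeff 0)) j := by
    intro j
    simp only [Matrix.mulVec, dotProduct, finsetSum_coeff, mul_coeff_one, Matrix.map_apply,
      Pi.add_apply, Finset.sum_add_distrib]
  have hG : ∀ (w : J → k[X]) (e : ℕ) (i : I),
      (((LinearMap.toMatrix' g).map C).mulVec w i).coeff e =
      g (fun j => (w j).coeff e) i := by
    intro w e i
    rw [← LinearMap.toMatrix'_mulVec]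
    simp only [Matrix.mulVec, dotProduct, finsetSum_coeff, coeff_C_mul, Matrix.map_apply]
  rw [← Matrix.mulVec_mulVec] at hv'
  have h0 : g ((E.map (fun p => p.coeff 0)).mulVecLin (fun i => (v' i).coeff 0)) = 0 := by
    funext i
    have := hG (E.mulVec v') 0 i
    rw [hv'] at this
    rw [Pi.zero_apply, coeff_zero] at this
    rw [Pi.zero_apply, this]
    have he : ((E.map (fun p => p.coeff 0)).mulVecLin (fun i => (v' i).coeff 0)) =
        fun j => (E.mulVec v' j).coeff 0 := by
      funext j
      rw [hc0]; rfl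
    rw [he]
  have h1 : g ((E.map (fun p => p.coeff 0)).mulVecLin (fun i => (v' i).coeff 1) +
      (E.map (fun p => p.coeff 1)).mulVecLin (fun i => (v' i).coeff 0)) = 0 := by
    funext i
    have := hG (E.mulVec v') 1 i
    rw [hv'] at this
    rw [Pi.zero_apply, coeff_zero] at this
    rw [Pi.zero_apply, this]
    have he : ((E.map (fun p => p.coeff 0)).mulVecLin (fun i => (v' i).coeff 1) +
        (E.map (fun p => p.coeff 1)).mulVecLin (fun i => (v' i).coeff 0)) =
        fun j => (E.mulVec v' j).coeff 1 := by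
      funext j
      rw [hc1]; rfl
    rw [he]
  have h2 := hg1 _ _ (hg0 _ h0) h1
  exact hi (congrFun h2 i)

end N750.CF
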