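import Pool.Agent.N750.CF.Un

/-!
Vanishing for the general collision.
-/

namespace N750.CF

open Polynomial

variable {k : Type*} [Field k]

theorem natDegree_X_add_one_pow (N : ℕ) : ((X + 1 : k[X]) ^ N).natDegree = N := by
  rw [natDegree_pow]
  have := natDegree_X_add_C (1 : k)
  simp only [map_one] at this
  rw [this, mul_one]

/-- If the conditions along `y = (x+1)^s` are injective, then so are those along a general arc. -/
theorem general_of_injective {r s m d : ℕ} (hsr : s < r)
    (H : ∀ P : k[X][X], DegLT (d + 1) P → Fat r m (cur k s) P → P = 0) :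
    GeneralVanishing k r m d := by
  have harc : arc (fun i : Fin r => ((cur k s).map (C : k →+* k[X])).coeff i) =
      (cur k s).map C := by
    apply arc_coeff
    rw [natDegree_map_eq_of_injective (C_injective)]
    unfold cur
    rw [natDegree_X_add_one_pow]
    exact hsr
  apply general_of_first_order (fun i : Fin r => ((cur k s).map (C : k →+* k[X])).coeff i)
  intro v0 v1 h0 _
  rw [harc] at h0
  have h1 : (mat r m (d + 1) ((cur k s).map (C : k →+* k[X]))).map (fun p => p.coeff 0) =
      mat r m (d + 1) (cur k s) := by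
    have h2 := mat_map r m (d + 1) (constantCoeff : k[X] →+* k) ((cur k s).map (C : k →+* k[X]))
    rw [Polynomial.map_map] at h2
    have h3 : (constantCoeff : k[X] →+* k).comp C = RingHom.id k := by ext x; simp
    rw [h3, Polynomial.map_id] at h2
    exact h2
  rw [h1] at h0
  exact pof_eq_zero (H _ (degLT_pof v0) (fat_of_ker h0))

/-- The range `d < m s`, `s^2 ≤ r`. -/
theorem general_low {r s m d : ℕ} (hs : 2 ≤ s) (hr : s ^ 2 ≤ r) (hd : d < m * s) :
    GeneralVanishing k r m d := by
  apply general_of_injective (s := s) (by nlinarith)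
  intro P hP hF
  exact zero_of_low hs hr m (d + 1) P hd hP hF

/-- The range `s d < r m`, `r ≤ s^2`. -/
theorem general_high {r s m d : ℕ} (hs : 2 ≤ s) (hsr : s < r) (hr : r ≤ s ^ 2)
    (hd : s * d < r * m) : GeneralVanishing k r m d := by
  apply general_of_injective (s := s) hsr
  intro P hP hF
  apply zero_of_high hs hr m (d + 1) P _ hP hF
  rw [mul_add, mul_one]
  omega

/-- The deformed arc over `k[e]`. -/
noncomputable def dphi (k : Type*) [Field k] (s : ℕ) : k[X][X] :=
  (cur k s).map C + C X * ((X + 1 : k[X]) ^ (3 * s - 1)).map C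

theorem dphi_map (s : ℕ) : (dphi k s).map (constantCoeff : k[X] →+* k) = cur k s := by
  unfold dphi
  rw [Polynomial.map_add, Polynomial.map_mul, Polynomial.map_map, map_C]
  have h3 : (constantCoeff : k[X] →+* k).comp C = RingHom.id k := by ext x; simp
  rw [h3, Polynomial.map_id]
  simp

theorem dphi_natDegree {s : ℕ} (hs : 4 ≤ s) : (dphi k s).natDegree < s ^ 2 := by
  have h1 : (dphi k s).natDegree ≤ 3 * s - 1 := by
    unfold dphi
    apply natDegree_add_le_of_degree_le
    · rw [natDegree_map_eq_of_injective (C_injective)]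
      unfold cur
      rw [natDegree_X_add_one_pow]
      omega
    · apply (natDegree_C_mul_le _ _).trans
      rw [natDegree_map_eq_of_injective (C_injective), natDegree_X_add_one_pow]
  have h2 : 4 * s ≤ s * s := Nat.mul_le_mul_right _ hs
  rw [sq]; omega

theorem taylor_X_sub_C' {R : Type*} [CommRing R] (a b : R) :
    taylor a (X - C b) = X + C (a - b) := by
  rw [taylor_apply]
  simp [add_sub_assoc]

theorem choose_of_succ {t m : ℕ} (h : t + 1 = m) : m.choose t = m := by
  subst h; simp

/-- The first order part of the conditions on a multiple of `(y - (x+1)^s)^m`. -/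
theorem first_order {s m n : ℕ} {c : k} {v0 : Mn n → k}
    (h : pof v0 = C (C c) * (X - C (cur k s)) ^ m) (q : Cd (s ^ 2) m) :
    ((mat (s ^ 2) m n (dphi k s)).map (fun p => p.coeff 1)).mulVec v0 q =
      ((if (q.1.1 : ℕ) + 1 = m then C (c * m) * (X + 1) ^ (3 * s - 1) else 0) : k[X]).coeff
        (q.1.2 : ℕ) := by
  have h1 : ((mat (s ^ 2) m n (dphi k s)).map (fun p => p.coeff 1)).mulVec v0 q =
      ((mat (s ^ 2) m n (dphi k s)).mulVec (fun p => C (v0 p)) q).coeff 1 := by
    simp only [Matrix.mulVec, dotProduct, finsetSum_coeff, coeff_mul_C, Matrix.map_apply]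
  rw [h1, mat_mulVec, ← pof_map, h]
  have h2 : taylor (dphi k s) ((C (C c) * (X - C (cur k s)) ^ m).map (mapRingHom (C : k →+* k[X])))
      = C (C (C c)) * (X + C (C X * ((X + 1 : k[X]) ^ (3 * s - 1)).map C)) ^ m := by
    rw [Polynomial.map_mul, Polynomial.map_pow, Polynomial.map_sub, map_X, map_C, map_C,
      taylor_mul, taylor_pow, taylor_X_sub_C', taylor_C]
    simp only [coe_mapRingHom, map_C]
    congr 3
    unfold dphi
    rw [add_sub_cancel_left]
  rw [h2, coeff_C_mul, coeff_X_add_C_pow]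
  have ht := q.1.1.2
  obtain ⟨u, hu⟩ : ∃ u, m - (q.1.1 : ℕ) = u + 1 := ⟨m - q.1.1 - 1, by omega⟩
  rw [hu, mul_pow, ← C_pow, mul_assoc, coeff_C_mul, coeff_C_mul, coeff_C_mul]
  by_cases h3 : (q.1.1 : ℕ) + 1 = m
  · have hu0 : u = 0 := by omega
    have hch : m.choose (q.1.1 : ℕ) = m := choose_of_succ h3
    rw [if_pos h3, hu0, hch, zero_add, pow_one, pow_one, coeff_X_mul, coeff_C_mul]
    have h4 : ((((X + 1 : k[X]) ^ (3 * s - 1)).map C) * ((m : ℕ) : k[X][X])).coeff (q.1.2 : ℕ) =
        C ((((X + 1 : k[X]) ^ (3 * s - 1)).coeff (q.1.2 : ℕ)) * m) := by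
      rw [← C_eq_natCast, coeff_mul_C, coeff_map]
      simp
    rw [h4, coeff_C_zero]
    ring
  · rw [if_neg h3, coeff_zero]
    have hu1 : 1 ≤ u := by omega
    rw [coeff_X_pow_mul', if_neg (by omega), mul_zero]

/-- The boundary degree for perfect squares. -/
theorem general_square {s m d : ℕ} (hs : 4 ≤ s) (hm : 1 ≤ m) (hd : d ≤ m * s)
    (hk : ∀ j : ℕ, 1 ≤ j → j ≤ m → ((j * s : ℕ) : k) ≠ 0) :
    GeneralVanishing k (s ^ 2) m d := by
  have hk' : (s : k) ≠ 0 := by
    have := hk 1 le_rfl hm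
    simpa using this
  have harc : arc (fun i : Fin (s ^ 2) => (dphi k s).coeff i) = dphi k s :=
    arc_coeff (dphi_natDegree hs)
  apply general_of_first_order (fun i : Fin (s ^ 2) => (dphi k s).coeff i)
  intro v0 v1 h0 h1
  rw [harc] at h0 h1
  have h2 : (mat (s ^ 2) m (d + 1) (dphi k s)).map (fun p => p.coeff 0) =
      mat (s ^ 2) m (d + 1) (cur k s) := by
    have h2 := mat_map (s ^ 2) m (d + 1) (constantCoeff : k[X] →+* k) (dphi k s)
    rw [dphi_map] at h2
    exact h2
  rw [h2] at h0 h1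
  obtain ⟨c, hc⟩ := eq_pow_of_boundary (by omega) hk' m (d + 1) (pof v0) hk (by omega)
    (degLT_pof v0) (fat_of_ker h0)
  have h3 : Fst (s ^ 2) s m (c * m) (pof v1) := by
    intro t ht
    rw [X_pow_dvd_iff]
    intro l hl
    have h4 : s ^ 2 * (m - t) ≤ s ^ 2 * m := Nat.mul_le_mul_left _ (Nat.sub_le _ _)
    have h5 := congrFun h1 ⟨(⟨t, ht⟩, ⟨l, by omega⟩), hl⟩
    rw [Pi.add_apply, mat_mulVec, first_order hc] at h5
    rw [coeff_add]
    exact h5
  obtain ⟨m', rfl⟩ : ∃ m', m = m' + 1 := ⟨m - 1, by omega⟩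
  have h4 : c * ((m' + 1 : ℕ) : k) = 0 := by
    apply fst_zero hs hk' m' _ (pof v1) hk _ h3
    exact degLT_mono (by omega) (degLT_pof v1)
  have h5 : ((m' + 1 : ℕ) : k) ≠ 0 := by
    intro h6
    apply hk (m' + 1) (by omega) le_rfl
    rw [Nat.cast_mul, h6, zero_mul]
  have h6 : c = 0 := by
    rcases mul_eq_zero.1 h4 with h | h
    · exact h
    · exact absurd h h5
  apply pof_eq_zero
  rw [hc, h6]; simp

end N750.CF
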