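import Mathlib

/-!
Definitions for very general quasimonomial valuations.
-/

namespace N750.CF

/-- The substitution `x = x`, `y = xi(x) + u`, `z = 1` in a form `f(x,y,z)`, where
`xi = x (c_0 + c_1 x + ...)`; the result is a polynomial in `u` over `C[[x]]`. -/
noncomputable def subst (c : ℕ → ℂ) (f : MvPolynomial (Fin 3) ℂ) : Polynomial (PowerSeries ℂ) :=
  MvPolynomial.aeval
    (![Polynomial.C PowerSeries.X,
       Polynomial.C (PowerSeries.X * PowerSeries.mk c) + Polynomial.X,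
       1] : Fin 3 → Polynomial (PowerSeries ℂ)) f

/-- `v_(xi,t)(f) ≤ V`: some monomial `x^i u^j` with `i + t j ≤ V` occurs in `f`. -/
def ValueLE (c : ℕ → ℂ) (t : ℝ) (f : MvPolynomial (Fin 3) ℂ) (V : ℝ) : Prop :=
  ∃ i j : ℕ, PowerSeries.coeff i ((subst c f).coeff j) ≠ 0 ∧ (i : ℝ) + t * (j : ℝ) ≤ V

/-- `muhat(xi,t) ≤ mu`, in the strong form: every nonzero form of degree `d` has
value at most `d mu`. -/
def MuLE (c : ℕ → ℂ) (t mu : ℝ) : Prop :=
  ∀ (d : ℕ) (f : MvPolynomial (Fin 3) ℂ), f.IsHomogeneous d → f ≠ 0 → ValueLE c t f (d * mu)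

end N750.CF
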