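import Pool.Agent.N750.CF.Qm
import Pool.Agent.N750.CF.Ex

/-!
Bounds for very general quasimonomial valuations.
-/

namespace N750.CF

open Polynomial

theorem muLE_mono {c : ℕ → ℂ} {t mu mu' : ℝ} (h : mu ≤ mu') (hm : MuLE c t mu) :
    MuLE c t mu' := by
  intro d f hf hf0
  obtain ⟨i, j, h1, h2⟩ := hm d f hf hf0
  refine ⟨i, j, h1, h2.trans ?_⟩
  exact mul_le_mul_of_nonneg_left h (Nat.cast_nonneg d)

/-- The conditions on the germ for one pair `(a, b)`. -/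
def Good (a b : ℕ) (c : ℕ → ℂ) : Prop :=
  ∀ (d : ℕ) (v : Mn (d + 1) → ℂ), (qmat a b d c).mulVec v = 0 → v = 0

theorem weight_of_good {a b : ℕ} {c : ℕ → ℂ} (h : Good a b c) (d : ℕ)
    (f : MvPolynomial (Fin 3) ℂ) (hf : f.IsHomogeneous d) (hf0 : f ≠ 0) :
    ∃ i j : ℕ, PowerSeries.coeff i ((subst c f).coeff j) ≠ 0 ∧
      b ^ 2 * i + a ^ 2 * j ≤ a * b * d := by
  by_contra hc
  push Not at hc
  apply hf0
  have h1 : (fun p : Mn (d + 1) => f.coeff (ex d p)) = 0 := by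
    apply h d
    funext q
    rw [qmat_mulVec, ← subst_eq c hf]
    by_contra h2
    exact absurd q.2 (not_le.2 (hc q.1.1 q.1.2 h2))
  rw [form_eq hf]
  apply Finset.sum_eq_zero
  intro p _
  rw [show f.coeff (ex d p) = 0 from congrFun h1 p, map_zero]

theorem muLE_of_good {a b : ℕ} (ha : 1 ≤ a) (hb : 1 ≤ b) {c : ℕ → ℂ} (h : Good a b c)
    {t : ℝ} (ht : 0 < t) : MuLE c t (max ((a : ℝ) / b) (t * b / a)) := by
  intro d f hf hf0
  obtain ⟨i, j, h1, h2⟩ := weight_of_good h d f hf hf0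
  refine ⟨i, j, h1, ?_⟩
  have ha0 : (0 : ℝ) < a := by exact_mod_cast ha
  have hb0 : (0 : ℝ) < b := by exact_mod_cast hb
  have hi : (0 : ℝ) ≤ i := Nat.cast_nonneg i
  have hj : (0 : ℝ) ≤ j := Nat.cast_nonneg j
  have hd : (0 : ℝ) ≤ d := Nat.cast_nonneg d
  have h3 : (b : ℝ) ^ 2 * i + (a : ℝ) ^ 2 * j ≤ a * b * d := by exact_mod_cast h2
  rcases le_total (t * (b : ℝ) ^ 2) ((a : ℝ) ^ 2) with h4 | h4
  · apply le_trans _ (mul_le_mul_of_nonneg_left (le_max_left _ _) hd)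
    rw [mul_div_assoc', le_div_iff₀ hb0]
    have h5 : t * (b : ℝ) ^ 2 * j ≤ (a : ℝ) ^ 2 * j := mul_le_mul_of_nonneg_right h4 hj
    have h6 : (b : ℝ) * ((i + t * j) * b) ≤ b * (d * a) := by nlinarith
    exact le_of_mul_le_mul_left h6 hb0
  · apply le_trans _ (mul_le_mul_of_nonneg_left (le_max_right _ _) hd)
    rw [mul_div_assoc', le_div_iff₀ ha0]
    have h5 : (a : ℝ) ^ 2 * i ≤ t * (b : ℝ) ^ 2 * i := mul_le_mul_of_nonneg_right h4 hi
    have h7 : t * ((b : ℝ) ^ 2 * i + (a : ℝ) ^ 2 * j) ≤ t * (a * b * d) :=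
      mul_le_mul_of_nonneg_left h3 ht.le
    have h6 : (a : ℝ) * ((i + t * j) * a) ≤ a * (d * (t * b)) := by nlinarith
    exact le_of_mul_le_mul_left h6 ha0

theorem exists_all : ∃ S : ℕ → MvPolynomial ℕ ℂ, (∀ k, S k ≠ 0) ∧
    ∀ c : ℕ → ℂ, (∀ k, MvPolynomial.eval c (S k) ≠ 0) →
      ∀ a b : ℕ, 2 ≤ b → b ^ 2 ≤ a → Good a b c := by
  classical
  set F : ℕ × ℕ × ℕ → MvPolynomial ℕ ℂ := fun x =>
    if h : 2 ≤ x.2.1 ∧ x.2.1 ^ 2 ≤ x.1 then (exists_cond h.1 h.2 x.2.2).choose else 1 with hF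
  refine ⟨fun n => F ((Denumerable.eqv (ℕ × ℕ × ℕ)).symm n), ?_, ?_⟩
  · intro k
    simp only [hF]
    split_ifs with h
    · exact (exists_cond h.1 h.2 _).choose_spec.1
    · exact one_ne_zero
  · intro c hc a b hb hab d v hv
    have h1 := hc (Denumerable.eqv (ℕ × ℕ × ℕ) (a, b, d))
    simp only [Equiv.symm_apply_apply] at h1
    have h2 : F (a, b, d) = (exists_cond hb hab d).choose := by
      simp only [hF]
      rw [dif_pos ⟨hb, hab⟩]
    rw [h2] at h1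
    exact (exists_cond hb hab d).choose_spec.2 c h1 v hv

theorem muLE_all {c : ℕ → ℂ} (h : ∀ a b : ℕ, 2 ≤ b → b ^ 2 ≤ a → Good a b c) {t : ℝ}
    (ht : 0 < t) {a b : ℕ} (hb : 1 ≤ b) (ha : 2 ≤ a) (hab : b ^ 2 ≤ a) :
    MuLE c t (max ((a : ℝ) / b) (t * b / a)) := by
  by_cases hb2 : 2 ≤ b
  · exact muLE_of_good (by omega) hb (h a b hb2 hab) ht
  · have hb1 : b = 1 := by omega
    subst hb1
    have h1 := muLE_of_good (a := 2 * a) (b := 2) (by omega) (by omega)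
      (h (2 * a) 2 le_rfl (by omega)) ht
    have ha0 : (0 : ℝ) < a := by exact_mod_cast (by omega : 0 < a)
    have h2 : ((2 * a : ℕ) : ℝ) / (2 : ℕ) = (a : ℝ) / (1 : ℕ) := by
      push_cast; field_simp
    have h3 : t * (2 : ℕ) / ((2 * a : ℕ) : ℝ) = t * (1 : ℕ) / (a : ℝ) := by
      push_cast; field_simp
    rw [h2, h3] at h1
    exact h1

theorem muLE_square {c : ℕ → ℂ} (h : ∀ a b : ℕ, 2 ≤ b → b ^ 2 ≤ a → Good a b c)
    {a b : ℕ} (hb : 1 ≤ b) (ha : 2 ≤ a) (hab : b ^ 2 ≤ a) :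
    MuLE c (((a : ℝ) / b) ^ 2) ((a : ℝ) / b) := by
  have ha0 : (0 : ℝ) < a := by exact_mod_cast (by omega : 0 < a)
  have hb0 : (0 : ℝ) < b := by exact_mod_cast (by omega : 0 < b)
  have h1 := muLE_all h (t := ((a : ℝ) / b) ^ 2) (by positivity) hb ha hab
  have h2 : ((a : ℝ) / b) ^ 2 * b / a = a / b := by field_simp
  rw [h2, max_self] at h1
  exact h1

theorem muLE_explicit {c : ℕ → ℂ} (h : ∀ a b : ℕ, 2 ≤ b → b ^ 2 ≤ a → Good a b c)
    {t : ℝ} (ht : 9 ≤ t) :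
    MuLE c t (Real.sqrt t + 3 / (5 * (⌊Real.sqrt t⌋₊ : ℝ))) := by
  have hs3 : 3 ≤ Real.sqrt t := by
    apply Real.le_sqrt_of_sq_le; norm_num; exact ht
  have hb3 : 3 ≤ ⌊Real.sqrt t⌋₊ := Nat.le_floor (by exact_mod_cast hs3)
  set b : ℕ := ⌊Real.sqrt t⌋₊ with hb
  have hbt : (b : ℝ) ≤ Real.sqrt t := Nat.floor_le (by linarith)
  obtain ⟨a, h1, h2, h3⟩ := exists_fraction (t := t) (b := b) (by omega) hbt
  have hb0 : (0 : ℝ) < b := by exact_mod_cast (by omega : 0 < b)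
  have hb3' : (3 : ℝ) ≤ b := by exact_mod_cast hb3
  have ha2 : 2 ≤ a := by nlinarith
  have ha0 : (0 : ℝ) < a := by exact_mod_cast (by omega : 0 < a)
  apply muLE_mono _ (muLE_all h (by linarith : 0 < t) (by omega) ha2 h1)
  have hst : Real.sqrt t * Real.sqrt t = t := Real.mul_self_sqrt (by linarith)
  set s := Real.sqrt t with hs
  have he : (b : ℝ) * (1 / (2 * b)) = 1 / 2 := by field_simp
  have he3 : (b : ℝ) * (3 / (5 * b)) = 3 / 5 := by field_simp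
  apply max_le
  · rw [div_le_iff₀ hb0]
    have : (s + 3 / (5 * b)) * b = b * s + b * (3 / (5 * b)) := by ring
    rw [this, he3]
    rw [mul_add, he] at h3
    linarith
  · rw [div_le_iff₀ ha0]
    -- t b ≤ (s + 3/(5b)) a, a > b s - 1/2
    rw [mul_sub, he] at h2
    have h4 : 0 < s + 3 / (5 * (b : ℝ)) := by positivity
    have h5 : (s + 3 / (5 * b)) * (b * s - 1 / 2) ≤ (s + 3 / (5 * b)) * a :=
      mul_le_mul_of_nonneg_left h2.le h4.le
    apply le_trans _ h5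
    have h6 : (s + 3 / (5 * b)) * (b * s - 1 / 2) =
        b * (s * s) + (b * (3 / (5 * b))) * s - s / 2 - (3 / (5 * b)) / 2 := by ring
    rw [h6, he3, hst]
    have h7 : 3 / (5 * (b : ℝ)) ≤ 1 / 5 := by
      rw [div_le_div_iff₀ (by positivity) (by norm_num)]
      linarith
    nlinarith

end N750.CF
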