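import Pool.Agent.N750.CF.Co
import Pool.Agent.N750.CF.Li

/-!
The universal matrix of the conditions imposed by the collision along the arc `phi_a`, and the
passage from one arc (or one first order deformation) to the general arc.
-/

namespace N750.CF

open Polynomial

/-- Monomials of degree less than `n`. -/
abbrev Mn (n : ℕ) := {p : Fin n × Fin n // (p.1 : ℕ) + (p.2 : ℕ) < n}

/-- Conditions. -/
abbrev Cd (r m : ℕ) := {q : Fin m × Fin (r * m) // (q.2 : ℕ) < r * (m - (q.1 : ℕ))}

/-- The polynomial with given coefficients. -/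
noncomputable def pof {R : Type*} [CommRing R] {n : ℕ} (v : Mn n → R) : R[X][X] :=
  ∑ p : Mn n, monomial (p.1.2 : ℕ) (monomial (p.1.1 : ℕ) (v p))

/-- The matrix of the conditions. -/
noncomputable def mat {R : Type*} [CommRing R] (r m n : ℕ) (phi : R[X]) :
    Matrix (Cd r m) (Mn n) R :=
  fun q p => ((taylor phi (monomial (p.1.2 : ℕ) (monomial (p.1.1 : ℕ) (1 : R)))).coeff
    (q.1.1 : ℕ)).coeff (q.1.2 : ℕ)

theorem mat_mulVec {R : Type*} [CommRing R] (r m n : ℕ) (phi : R[X]) (v : Mn n → R)
    (q : Cd r m) :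
    (mat r m n phi).mulVec v q = ((taylor phi (pof v)).coeff (q.1.1 : ℕ)).coeff (q.1.2 : ℕ) := by
  unfold pof
  rw [map_sum, finsetSum_coeff, finsetSum_coeff]
  unfold Matrix.mulVec dotProduct mat
  apply Finset.sum_congr rfl
  intro p _
  have h1 : (monomial (p.1.2 : ℕ) (monomial (p.1.1 : ℕ) (v p)) : R[X][X]) =
      C (C (v p)) * monomial (p.1.2 : ℕ) (monomial (p.1.1 : ℕ) (1 : R)) := by
    rw [C_mul_monomial, C_mul_monomial, mul_one]
  rw [h1, taylor_mul, taylor_C, coeff_C_mul, coeff_C_mul, mul_comm]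

theorem mat_map {R R' : Type*} [CommRing R] [CommRing R'] (r m n : ℕ) (f : R →+* R')
    (phi : R[X]) : (mat r m n phi).map f = mat r m n (phi.map f) := by
  ext q p
  rw [Matrix.map_apply]
  unfold mat
  have h1 : (taylor (phi.map f) (monomial (p.1.2 : ℕ) (monomial (p.1.1 : ℕ) (1 : R')))) =
      (taylor phi (monomial (p.1.2 : ℕ) (monomial (p.1.1 : ℕ) (1 : R)))).map (mapRingHom f) := by
    rw [taylor_apply, taylor_apply, Polynomial.map_comp]
    simp
  rw [h1, coeff_map, coe_mapRingHom, coeff_map]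

theorem arc_map {R R' : Type*} [CommRing R] [CommRing R'] {r : ℕ} (f : R →+* R')
    (a : Fin r → R) : (arc a).map f = arc (fun i => f (a i)) := by
  unfold arc
  rw [Polynomial.map_sum]
  simp

theorem arc_coeff {R : Type*} [CommRing R] {r : ℕ} {p : R[X]} (hp : p.natDegree < r) :
    arc (fun i : Fin r => p.coeff i) = p := by
  unfold arc
  rw [Fin.sum_univ_eq_sum_range (fun i => C (p.coeff i) * X ^ i) r]
  exact (as_sum_range_C_mul_X_pow' p hp).symm

theorem coeff_coeff_pof {R : Type*} [CommRing R] {n : ℕ} (v : Mn n → R) (i j : ℕ) :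
    ((pof v).coeff j).coeff i =
      if h : i + j < n then v ⟨(⟨i, by omega⟩, ⟨j, by omega⟩), h⟩ else 0 := by
  unfold pof
  rw [finsetSum_coeff, finsetSum_coeff]
  have h1 : ∀ p : Mn n, ((monomial (p.1.2 : ℕ) (monomial (p.1.1 : ℕ) (v p)) : R[X][X]).coeff
      j).coeff i = if (p.1.1 : ℕ) = i ∧ (p.1.2 : ℕ) = j then v p else 0 := by
    intro p
    rw [coeff_monomial]
    by_cases hj : (p.1.2 : ℕ) = j
    · rw [if_pos hj, coeff_monomial]
      by_cases hi : (p.1.1 : ℕ) = i
      · rw [if_pos hi, if_pos ⟨hi, hj⟩]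
      · rw [if_neg hi, if_neg (fun h => hi h.1)]
    · rw [if_neg hj, coeff_zero, if_neg (fun h => hj h.2)]
  simp only [h1]
  split_ifs with h
  · rw [Finset.sum_eq_single (⟨(⟨i, by omega⟩, ⟨j, by omega⟩), h⟩ : Mn n)]
    · simp
    · intro p _ hp
      apply if_neg
      rintro ⟨h2, h3⟩
      apply hp
      apply Subtype.ext
      apply Prod.ext
      · exact Fin.ext h2
      · exact Fin.ext h3
    · intro h2; exact absurd (Finset.mem_univ _) h2
  · apply Finset.sum_eq_zero
    intro p _
    apply if_neg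
    rintro ⟨h2, h3⟩
    apply h
    have := p.2
    omega

theorem degLT_pof {R : Type*} [CommRing R] {n : ℕ} (v : Mn n → R) : DegLT n (pof v) := by
  intro i j hij
  rw [coeff_coeff_pof, dif_neg (by omega)]

theorem pof_coeff {R : Type*} [CommRing R] {n : ℕ} {P : R[X][X]} (hP : DegLT n P) :
    pof (fun p : Mn n => (P.coeff (p.1.2 : ℕ)).coeff (p.1.1 : ℕ)) = P := by
  ext j i
  rw [coeff_coeff_pof]
  split_ifs with h
  · rfl
  · exact (hP i j (by omega)).symm

theorem pof_eq_zero {R : Type*} [CommRing R] {n : ℕ} {v : Mn n → R} (h : pof v = 0) : v = 0 := by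
  funext p
  have h1 := coeff_coeff_pof v (p.1.1 : ℕ) (p.1.2 : ℕ)
  rw [h, dif_pos p.2] at h1
  simpa using h1.symm

theorem pof_map {R R' : Type*} [CommRing R] [CommRing R'] {n : ℕ} (f : R →+* R') (v : Mn n → R) :
    (pof v).map (mapRingHom f) = pof (fun p => f (v p)) := by
  unfold pof
  rw [Polynomial.map_sum]
  simp

variable {k : Type*} [Field k]

theorem fat_of_ker {r m n : ℕ} {phi : k[X]} {v : Mn n → k} (h : (mat r m n phi).mulVec v = 0) :
    Fat r m phi (pof v) := by
  intro t
  by_cases ht : t < m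
  · rw [X_pow_dvd_iff]
    intro l hl
    have h1 : r * (m - t) ≤ r * m := Nat.mul_le_mul_left _ (Nat.sub_le _ _)
    have h2 := congrFun h ⟨(⟨t, ht⟩, ⟨l, by omega⟩), hl⟩
    rw [mat_mulVec] at h2
    exact h2
  · have : m - t = 0 := by omega
    rw [this, mul_zero, pow_zero]
    exact one_dvd _

theorem ker_of_fat {r m n : ℕ} {phi : k[X]} {v : Mn n → k} (h : Fat r m phi (pof v)) :
    (mat r m n phi).mulVec v = 0 := by
  funext q
  rw [mat_mulVec]
  exact (X_pow_dvd_iff.1 (h q.1.1)) _ q.2

theorem fat_succ {r m : ℕ} {phi : k[X]} (I : Ideal k[X][X]) (hI : ∀ P ∈ I, Fat r m phi P)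
    (P : k[X][X]) (h : P ∈ I * Ideal.span {X - C phi, C (X ^ r)}) : Fat r (m + 1) phi P := by
  refine Submodule.mul_induction_on h ?_ ?_
  · intro a ha b hb
    have hF := hI a ha
    obtain ⟨x, y, hxy⟩ := Ideal.mem_span_pair.1 hb
    have h1 : a * b = x * ((X - C phi) * a) + y * (C (X ^ r) * a) := by
      rw [← hxy]; ring
    have key : ∀ (z w : k[X][X]), Fat r (m + 1) phi w → Fat r (m + 1) phi (z * w) := by
      intro z w hw t
      rw [taylor_mul, coeff_mul]
      apply Finset.dvd_sum
      intro p hp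
      apply Dvd.dvd.mul_left
      have h2 := Finset.HasAntidiagonal.mem_antidiagonal.1 hp
      apply (pow_dvd_pow X _).trans (hw p.2)
      apply Nat.mul_le_mul_left
      omega
    have h2 : Fat r (m + 1) phi ((X - C phi) * a) := by
      intro t
      rw [taylor_mul_sub]
      cases t with
      | zero => simp
      | succ t =>
        rw [coeff_X_mul]
        have := hF t
        have h3 : m + 1 - (t + 1) = m - t := by omega
        rwa [h3]
    have h3 : Fat r (m + 1) phi (C (X ^ r) * a) := by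
      intro t
      rw [taylor_mul, taylor_C, coeff_C_mul]
      have h4 : r * (m + 1 - t) ≤ r + r * (m - t) := by
        by_cases ht : t ≤ m
        · have : m + 1 - t = (m - t) + 1 := by omega
          rw [this, mul_add, mul_one, add_comm]
        · have : m + 1 - t = 0 := by omega
          rw [this]; simp
      apply (pow_dvd_pow X h4).trans
      rw [pow_add]
      exact mul_dvd_mul_left _ (hF t)
    intro t
    rw [h1, map_add, coeff_add]
    exact dvd_add (key x _ h2 t) (key y _ h3 t)
  · intro a b iha ihb t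
    rw [map_add, coeff_add]
    exact dvd_add (iha t) (ihb t)

/-- The ideal of the collision is contained in the set described by `Fat`. -/
theorem fat_of_mem {r m : ℕ} {phi : k[X]} {P : k[X][X]} (h : P ∈ collision r m phi) :
    Fat r m phi P := by
  unfold collision at h
  induction m generalizing P with
  | zero =>
    intro t
    rw [Nat.zero_sub, mul_zero, pow_zero]
    exact one_dvd _
  | succ m ih =>
    exact fat_succ _ (fun P hP => ih hP) P ((pow_succ (Ideal.span {X - C phi, C (X ^ r)} : Ideal k[X][X]) m) ▸ h)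

/-- The square matrix `G E`. -/
noncomputable def sqm {R : Type*} [CommRing R] (f : k →+* R) {r m n : ℕ}
    (G : Matrix (Mn n) (Cd r m) k) (phi : R[X]) : Matrix (Mn n) (Mn n) R :=
  G.map f * mat r m n phi

theorem sqm_map {R R' : Type*} [CommRing R] [CommRing R'] (f : k →+* R) (g : R →+* R')
    {r m n : ℕ} (G : Matrix (Mn n) (Cd r m) k) (phi : R[X]) :
    g (sqm f G phi).det = (sqm (g.comp f) G (phi.map g)).det := by
  rw [RingHom.map_det, RingHom.mapMatrix_apply]
  congr 1
  unfold sqm
  rw [Matrix.map_mul, Matrix.map_map, mat_map]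
  rfl

/-- From a first order deformation to the general arc. -/
theorem general_of_first_order {r m d : ℕ} (a : Fin r → k[X])
    (H : ∀ v0 v1 : Mn (d + 1) → k,
      ((mat r m (d + 1) (arc a)).map (fun p => p.coeff 0)).mulVec v0 = 0 →
      ((mat r m (d + 1) (arc a)).map (fun p => p.coeff 0)).mulVec v1 +
        ((mat r m (d + 1) (arc a)).map (fun p => p.coeff 1)).mulVec v0 = 0 → v0 = 0) :
    GeneralVanishing k r m d := by
  obtain ⟨G, hG⟩ := exists_det_ne_zero (mat r m (d + 1) (arc a)) H
  have hG' : (sqm C G (arc a)).det ≠ 0 := hG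
  refine ⟨(sqm MvPolynomial.C G (arc MvPolynomial.X)).det, ?_, ?_⟩
  · intro h
    apply hG'
    have h1 := congrArg (MvPolynomial.eval₂Hom (C : k →+* k[X]) a) h
    rw [sqm_map, map_zero, arc_map] at h1
    rw [← h1]
    congr 2
    · ext x; simp
    · simp
  · intro b hb P hP hPm
    rw [sqm_map, arc_map] at hb
    have h0 : (MvPolynomial.eval b).comp (MvPolynomial.C) = RingHom.id k := by
      ext x; simp
    rw [h0] at hb
    simp only [MvPolynomial.eval_X] at hb
    have h2 := fat_of_mem hPm
    rw [← pof_coeff hP] at h2 ⊢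
    have h3 := ker_of_fat h2
    have h4 : (sqm (RingHom.id k) G (arc b)).mulVec
        (fun p : Mn (d + 1) => (P.coeff (p.1.2 : ℕ)).coeff (p.1.1 : ℕ)) = 0 := by
      unfold sqm
      rw [← Matrix.mulVec_mulVec, h3, Matrix.mulVec_zero]
    by_contra hc
    apply hb
    apply Matrix.exists_mulVec_eq_zero_iff.1
    refine ⟨_, ?_, h4⟩
    intro h5
    apply hc
    rw [h5]
    unfold pof
    simp

end N750.CF
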