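import Pool.Agent.N750.CF.Qd
import Pool.Agent.N750.CF.Un
import Pool.Agent.N750.CF.Va
import Pool.Agent.N750.CF.Mn

/-!
Very general quasimonomial valuations.
-/

namespace N750.CF

open Polynomial

/-- `R[x] → R[[x]]`. -/
noncomputable abbrev coeP (R : Type*) [CommRing R] : R[X] →+* PowerSeries R :=
  Polynomial.coeToPowerSeries.ringHom

/-- Conditions of weight at most `a b d`. -/
abbrev Cq (a b d : ℕ) :=
  {q : Fin (a * d + 1) × Fin (d + 1) // b ^ 2 * (q.1 : ℕ) + a ^ 2 * (q.2 : ℕ) ≤ a * b * d}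

/-- The matrix of the conditions. -/
noncomputable def qmat {R : Type*} [CommRing R] (a b d : ℕ) (c : ℕ → R) :
    Matrix (Cq a b d) (Mn (d + 1)) R :=
  fun q p => PowerSeries.coeff (q.1.1 : ℕ) ((taylor (PowerSeries.X * PowerSeries.mk c)
    ((monomial (p.1.2 : ℕ) (monomial (p.1.1 : ℕ) (1 : R))).map (coeP R))).coeff (q.1.2 : ℕ))

theorem qmat_mulVec {R : Type*} [CommRing R] (a b d : ℕ) (c : ℕ → R) (v : Mn (d + 1) → R)
    (q : Cq a b d) :
    (qmat a b d c).mulVec v q = PowerSeries.coeff (q.1.1 : ℕ)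
      ((taylor (PowerSeries.X * PowerSeries.mk c) ((pof v).map (coeP R))).coeff (q.1.2 : ℕ)) := by
  unfold pof
  rw [Polynomial.map_sum, map_sum, finsetSum_coeff, map_sum]
  unfold Matrix.mulVec dotProduct qmat
  apply Finset.sum_congr rfl
  intro p _
  have h1 : (monomial (p.1.2 : ℕ) (monomial (p.1.1 : ℕ) (v p)) : R[X][X]) =
      C (C (v p)) * monomial (p.1.2 : ℕ) (monomial (p.1.1 : ℕ) (1 : R)) := by
    rw [C_mul_monomial, C_mul_monomial, mul_one]
  rw [h1, Polynomial.map_mul, map_C, taylor_mul, taylor_C, coeff_C_mul]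
  have h2 : coeP R (C (v p)) = PowerSeries.C (v p) := by simp
  rw [h2, PowerSeries.coeff_C_mul, mul_comm]

theorem qmat_map {R R' : Type*} [CommRing R] [CommRing R'] (a b d : ℕ) (f : R →+* R')
    (c : ℕ → R) : (qmat a b d c).map f = qmat a b d (fun i => f (c i)) := by
  ext q p
  rw [Matrix.map_apply]
  unfold qmat
  have h0 : (PowerSeries.map f) (PowerSeries.X * PowerSeries.mk c) =
      PowerSeries.X * PowerSeries.mk (fun i => f (c i)) := by
    rw [map_mul, PowerSeries.map_X]
    congr 1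
  have h1 : taylor (PowerSeries.X * PowerSeries.mk (fun i => f (c i)))
      ((monomial (p.1.2 : ℕ) (monomial (p.1.1 : ℕ) (1 : R'))).map (coeP R')) =
      (taylor (PowerSeries.X * PowerSeries.mk c)
        ((monomial (p.1.2 : ℕ) (monomial (p.1.1 : ℕ) (1 : R))).map (coeP R))).map
          (PowerSeries.map f) := by
    rw [taylor_apply, taylor_apply, Polynomial.map_comp]
    simp only [map_monomial, Polynomial.map_add, map_X, map_C]
    rw [h0]
    congr 2
    ext n
    simp only [Polynomial.coeToPowerSeries.ringHom_apply, Polynomial.coe_monomial,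
      PowerSeries.coeff_map, PowerSeries.coeff_monomial]
    split_ifs <;> simp
  rw [h1, coeff_map, PowerSeries.coeff_map]

/-- The special germ `(x+1)^b - 1 + x^a`. -/
noncomputable def sp (a b : ℕ) : ℂ[X] := cur ℂ b - 1 + X ^ a

theorem sp_series {a b : ℕ} (ha : 1 ≤ a) :
    PowerSeries.X * PowerSeries.mk (fun l => (sp a b).coeff (l + 1)) = coeP ℂ (sp a b) := by
  ext n
  cases n with
  | zero =>
    simp only [PowerSeries.coeff_zero_X_mul]
    have : (sp a b).coeff 0 = 0 := by
      unfold sp cur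
      rw [coeff_zero_eq_eval_zero]
      simp
      omega
    simp [this]
  | succ n =>
    rw [PowerSeries.coeff_succ_X_mul]
    simp

theorem exists_cond {a b : ℕ} (hb : 2 ≤ b) (hab : b ^ 2 ≤ a) (d : ℕ) :
    ∃ F : MvPolynomial ℕ ℂ, F ≠ 0 ∧ ∀ c : ℕ → ℂ, MvPolynomial.eval c F ≠ 0 →
      ∀ v : Mn (d + 1) → ℂ, (qmat a b d c).mulVec v = 0 → v = 0 := by
  have ha : 1 ≤ a := le_trans (Nat.one_le_pow _ _ (by omega)) hab
  have hba : b ≤ a := by nlinarith
  set c0 : ℕ → ℂ := fun l => (sp a b).coeff (l + 1) with hc0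
  have hinj : LinearMap.ker (qmat a b d c0).mulVecLin = ⊥ := by
    rw [LinearMap.ker_eq_bot']
    intro v hv
    apply pof_eq_zero (n := d + 1)
    apply value_le' hb hab d (pof v) (degLT_pof v)
    intro i j hij
    have hi : i < a * d + 1 := by
      have h1 : b * (b * i) ≤ b * (a * d) := by nlinarith
      have h2 : b * i ≤ a * d := Nat.le_of_mul_le_mul_left h1 (by omega)
      have h3 : i ≤ b * i := Nat.le_mul_of_pos_left _ (by omega)
      omega
    have hj : j < d + 1 := by
      have h1 : a * (a * j) ≤ a * (b * d) := by nlinarith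
      have h2 : a * j ≤ b * d := Nat.le_of_mul_le_mul_left h1 (by omega)
      have h3 : b * d ≤ a * d := Nat.mul_le_mul_right _ hba
      have h4 : a * j ≤ a * d := h2.trans h3
      have h5 : j ≤ d := Nat.le_of_mul_le_mul_left h4 (by omega)
      omega
    have h1 := congrFun hv ⟨(⟨i, hi⟩, ⟨j, hj⟩), hij⟩
    rw [Matrix.mulVecLin_apply, qmat_mulVec, hc0, sp_series ha] at h1
    have h2 : taylor (coeP ℂ (sp a b)) ((pof v).map (coeP ℂ)) =
        (taylor (sp a b) (pof v)).map (coeP ℂ) := by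
      rw [taylor_apply, taylor_apply, Polynomial.map_comp]
      simp
    rw [h2, coeff_map] at h1
    simpa [sp] using h1
  obtain ⟨g, hg⟩ := LinearMap.exists_leftInverse_of_injective _ hinj
  set G : Matrix (Mn (d + 1)) (Cq a b d) ℂ := LinearMap.toMatrix' g with hG
  have hdet : ∀ c : ℕ → ℂ, MvPolynomial.eval c
      ((G.map MvPolynomial.C * qmat a b d MvPolynomial.X :
        Matrix (Mn (d + 1)) (Mn (d + 1)) (MvPolynomial ℕ ℂ)).det) =
      (G * qmat a b d c : Matrix (Mn (d + 1)) (Mn (d + 1)) ℂ).det := by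
    intro c
    rw [RingHom.map_det, RingHom.mapMatrix_apply]
    congr 1
    have h1 := Matrix.map_mul (L := G.map MvPolynomial.C)
      (M := qmat a b d (MvPolynomial.X : ℕ → MvPolynomial ℕ ℂ)) (f := MvPolynomial.eval c)
    refine h1.trans ?_
    rw [Matrix.map_map, qmat_map]
    congr 1
    · ext i j; simp
    · simp
  refine ⟨(G.map MvPolynomial.C * qmat a b d MvPolynomial.X :
        Matrix (Mn (d + 1)) (Mn (d + 1)) (MvPolynomial ℕ ℂ)).det, ?_, ?_⟩
  · intro h0
    have h1 := hdet c0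
    rw [h0, map_zero] at h1
    obtain ⟨v, hv0, hv⟩ := Matrix.exists_mulVec_eq_zero_iff.2 h1.symm
    apply hv0
    rw [← Matrix.mulVec_mulVec, hG, LinearMap.toMatrix'_mulVec] at hv
    have h2 := congrArg (fun f => f v) hg
    simp only [LinearMap.comp_apply, Matrix.mulVecLin_apply, LinearMap.id_apply] at h2
    rw [← h2]; exact hv
  · intro c hc v hv
    rw [hdet] at hc
    by_contra hv0
    apply hc
    apply Matrix.exists_mulVec_eq_zero_iff.1
    refine ⟨v, hv0, ?_⟩
    rw [← Matrix.mulVec_mulVec, hv, Matrix.mulVec_zero]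

/-- The exponent of a monomial of degree `d`. -/
noncomputable def ex (d : ℕ) (p : Mn (d + 1)) : Fin 3 →₀ ℕ :=
  Finsupp.equivFunOnFinite.symm ![(p.1.1 : ℕ), (p.1.2 : ℕ), d - (p.1.1 : ℕ) - (p.1.2 : ℕ)]

theorem ex_inj {d : ℕ} {p p' : Mn (d + 1)} (h : ex d p = ex d p') : p = p' := by
  have h0 := DFunLike.congr_fun h 0
  have h1 := DFunLike.congr_fun h 1
  unfold ex at h0 h1
  simp at h0 h1
  apply Subtype.ext
  apply Prod.ext
  · exact Fin.ext h0
  · exact Fin.ext h1

theorem form_eq {d : ℕ} {f : MvPolynomial (Fin 3) ℂ} (hf : f.IsHomogeneous d) :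
    f = ∑ p : Mn (d + 1), MvPolynomial.monomial (ex d p) (f.coeff (ex d p)) := by
  ext m
  rw [MvPolynomial.coeff_sum]
  simp only [MvPolynomial.coeff_monomial]
  by_cases hm : m 0 + m 1 + m 2 = d
  · have h0 : m 0 < d + 1 := by omega
    have h1 : m 1 < d + 1 := by omega
    have hme : ex d ⟨(⟨m 0, h0⟩, ⟨m 1, h1⟩), by simp; omega⟩ = m := by
      ext i
      unfold ex
      fin_cases i <;> simp
      omega
    rw [Finset.sum_eq_single (⟨(⟨m 0, h0⟩, ⟨m 1, h1⟩), by simp; omega⟩ : Mn (d + 1))]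
    · rw [if_pos hme, hme]
    · intro p _ hp
      apply if_neg
      intro h
      apply hp
      apply ex_inj
      rw [h, hme]
    · intro h; exact absurd (Finset.mem_univ _) h
  · rw [Finset.sum_eq_zero]
    · by_contra h
      apply hm
      have h1 := hf h
      rw [← h1]
      simp [Finsupp.weight_apply, Finsupp.sum_fintype, Fin.sum_univ_three]
    · intro p _
      apply if_neg
      rintro rfl
      apply hm
      have := p.2
      unfold ex
      simp
      omega

theorem subst_eq {d : ℕ} (c : ℕ → ℂ) {f : MvPolynomial (Fin 3) ℂ} (hf : f.IsHomogeneous d) :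
    subst c f = taylor (PowerSeries.X * PowerSeries.mk c)
      ((pof (fun p : Mn (d + 1) => f.coeff (ex d p))).map (coeP ℂ)) := by
  unfold subst
  conv_lhs => rw [form_eq hf]
  unfold pof
  rw [map_sum, Polynomial.map_sum, map_sum]
  apply Finset.sum_congr rfl
  intro p _
  rw [MvPolynomial.aeval_monomial, map_monomial, ← C_mul_X_pow_eq_monomial, taylor_mul,
    taylor_pow, taylor_X, taylor_C]
  unfold ex
  rw [Finsupp.prod_fintype _ _ (by simp)]
  rw [Fin.prod_univ_three]
  simp only [Finsupp.equivFunOnFinite_symm_apply_apply, Matrix.cons_val_zero, Matrix.cons_val_one,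
    Matrix.cons_val, one_pow, mul_one]
  rw [← mul_assoc, add_comm X]
  congr 1
  rw [← C_mul_X_pow_eq_monomial, map_mul, map_pow]
  simp [Polynomial.algebraMap_apply]

end N750.CF
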