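import Pool.Agent.N750.CF.Fi

/-!
Collisions at an arbitrary point of the plane.
-/

namespace N750.CF

open Polynomial

/-- The ideal `(y - phi(x - p), (x - p)^r)^m` of `R[x,y]`: the collision of `r` points of
multiplicity `m` at the point `(p, phi(0))`. -/
noncomputable def collisionAt {R : Type*} [CommRing R] (r m : ℕ) (p : R) (phi : R[X]) :
    Ideal R[X][X] :=
  (Ideal.span {X - C (phi.comp (X - C p)), C ((X - C p) ^ r)}) ^ m

/-- For general `a` (outside a proper closed subset of affine space) and all `p`,
no nonzero polynomial of total degree at most `d` lies in the ideal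
`(y - phi_a(x - p), (x - p)^r)^m`. -/
def VanishingForGeneralCollision (k : Type*) [Field k] (r m d : ℕ) : Prop :=
  ∃ F : MvPolynomial (Fin r) k, F ≠ 0 ∧
    ∀ a : Fin r → k, MvPolynomial.eval a F ≠ 0 →
      ∀ (p : k) (P : k[X][X]), DegLT (d + 1) P → P ∈ collisionAt r m p (arc a) → P = 0

variable {k : Type*} [Field k]

theorem vanishing_of_general {r m d : ℕ} (h : GeneralVanishing k r m d) :
    VanishingForGeneralCollision k r m d := by
  obtain ⟨F, hF, h⟩ := h
  refine ⟨F, hF, ?_⟩
  intro a ha p P hP hPm
  set f : k[X] →+* k[X] := compRingHom (X + C p) with hf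
  have hfx : ∀ q : k[X], f q = q.comp (X + C p) := fun q => by
    rw [hf, coe_compRingHom_apply]
  have h1 : P.map f = 0 := by
    apply h a ha
    · intro i j hij
      rw [coeff_map, hfx]
      by_cases h0 : P.coeff j = 0
      · simp [h0]
      · apply coeff_eq_zero_of_natDegree_lt
        rw [natDegree_comp, natDegree_X_add_C, mul_one]
        by_contra hc
        have h2 : (P.coeff j).coeff (P.coeff j).natDegree ≠ 0 := by simpa using h0
        apply h2
        apply hP
        omega
    · have h2 : (collisionAt r m p (arc a)).map (mapRingHom f) ≤ collision r m (arc a) := by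
        unfold collisionAt collision
        rw [Ideal.map_pow]
        apply Ideal.pow_right_mono
        rw [Ideal.map_span, Ideal.span_le]
        rintro x ⟨y, hy, rfl⟩
        rcases hy with rfl | hy
        · have : mapRingHom f (X - C ((arc a).comp (X - C p))) = X - C (arc a) := by
            rw [coe_mapRingHom, Polynomial.map_sub, map_X, map_C, hfx, comp_assoc]
            simp
          rw [this]
          exact Ideal.subset_span (by simp)
        · rw [Set.mem_singleton_iff] at hy
          rw [hy]
          have : mapRingHom f (C ((X - C p) ^ r)) = C (X ^ r) := by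
            rw [coe_mapRingHom, map_C, hfx, pow_comp]
            simp
          rw [this]
          exact Ideal.subset_span (by simp)
      have h3 := Ideal.mem_map_of_mem (mapRingHom f) hPm
      rw [coe_mapRingHom] at h3
      exact h2 h3
  have hinj : Function.Injective f := by
    intro q1 q2 h2
    rw [hfx, hfx] at h2
    have h3 := congrArg (fun q : k[X] => q.comp (X - C p)) h2
    simp only [comp_assoc] at h3
    simpa using h3
  exact (map_injective f hinj) (by rw [h1, Polynomial.map_zero])

end N750.CF
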